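import Pool.Agent.Lib.SE.T.One
import Pool.Agent.Lib.SE.K.Jnk

/-!
# PROJECT SE-T: one meagre set (helper64)
-/

set_option autoImplicit false

open Module MeasureTheory Topology

noncomputable section

namespace SET

open HC HC.E HC.SE SEB SEQ SEG SEY SEX SEZ SEK

/-- Two covers are isogenous or independent. -/
def InG (m r : ℕ) (b : Fin (r + 1) → ℕ) (m' r' : ℕ) (b' : Fin (r' + 1) → ℕ)
    (s : Fin (r + 1) → ℂ) (s' : Fin (r' + 1) → ℂ) : Prop :=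
  ∀ T T' : AV, IsCov m s b → IsCov m' s' b' → ∀ (N : New T m s b) (D : Cyc T m), D.Z = N.Z →
    GFs D r → ∀ (N' : New T' m' s' b') (D' : Cyc T' m'), D'.Z = N'.Z → GFs D' r' →
    Isg T T' ∨ Ind D D'

/-- Different ranks. -/
theorem ind_ne {T T' : AV} {m m' r r' : ℕ} {D : Cyc T m} {D' : Cyc T' m'} (hrr : r ≠ r')
    (hD : GFs D r) (hD' : GFs D' r') : Ind D D' := by
  intro h hh s t
  by_contra hn
  exact hrr (tkTs T T' m m' r r' D D' hD hD' h hh s t hn).1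

/-- The same four branch points. -/
theorem inG_of_inL {m : ℕ} {b : Fin (2 + 1) → ℕ} {m' : ℕ} {b' : Fin (2 + 1) → ℕ}
    {s s' : Fin (2 + 1) → ℂ} (h : InL m b m' b' s s') : InG m 2 b m' 2 b' s s' := by
  intro T T' hc hc' N D hZ hD N' D' hZ' hD'
  by_cases hI : Isg T T'
  · exact Or.inl hI
  · right
    intro k hk s t
    by_contra hn
    exact hI (h T T' hc hc' N D hZ hD N' D' hZ' hD' k hk s t hn).1

theorem inG_perm {m r : ℕ} {b : Fin (r + 1) → ℕ} {m' r' : ℕ} {b' : Fin (r' + 1) → ℕ}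
    {s : Fin (r + 1) → ℂ} {s' : Fin (r' + 1) → ℂ} (σ : Equiv.Perm (Fin (r + 1)))
    (σ' : Equiv.Perm (Fin (r' + 1)))
    (h : InG m r (b ∘ σ) m' r' (b' ∘ σ') (s ∘ σ) (s' ∘ σ')) : InG m r b m' r' b' s s' := by
  intro T T' hc hc' N D hZ hD N' D' hZ' hD'
  obtain ⟨-, h1, h2⟩ := modsX.Pm T m r s b σ
  obtain ⟨N₁, hN₁⟩ := h2 N
  obtain ⟨-, h1', h2'⟩ := modsX.Pm T' m' r' s' b' σ'
  obtain ⟨N₂, hN₂⟩ := h2' N'
  exact h T T' (h1 hc) (h1' hc') N₁ D (hZ.trans hN₁.symm) hD N₂ D' (hZ'.trans hN₂.symm) hD'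

theorem inG_symm {m r : ℕ} {b : Fin (r + 1) → ℕ} {m' r' : ℕ} {b' : Fin (r' + 1) → ℕ}
    {s : Fin (r + 1) → ℂ} {s' : Fin (r' + 1) → ℂ} (h : InG m' r' b' m r b s' s) :
    InG m r b m' r' b' s s' := by
  intro T T' hc hc' N D hZ hD N' D' hZ' hD'
  rcases h T' T hc' hc N' D' hZ' hD' N D hZ hD with h1 | h1
  · exact Or.inl (SEQ.Rep_aux.isg_symm HC.E.tIsoInv h1)
  · exact Or.inr (SEL.FnM_aux.ind_symm h1)

/-! ## Different sets of branch points -/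

theorem pairC_inc (M : ModsX) (hP : S_zP) (hZC : S_zC) (p m r : ℕ) (b : Fin (r + 1) → ℕ)
    (m' : ℕ) (b' : Fin (r + 1) → ℕ) (ι ι' : Fin (r + 1) → Fin p) (k k' : Option (Fin p))
    (i : Fin p) (hk : Okk ι k) (hk' : Okk ι' k') (hi : i ∈ Bs ι' k') (hi' : i ∉ Bs ι k)
    (hr : 1 ≤ r) (hW : HypW m r b) (hW' : HypW m' r b') :
    IsMeagre {s : Fin p → ℂ | Function.Injective s ∧ (Inc (pt s ι k) ∧ Inc (pt s ι' k')) ∧
      ¬ InG m r b m' r b' (pt s ι k) (pt s ι' k')} := by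
  obtain ⟨N₀, hN₀, hC⟩ := M.kC m r b hr (SEX.pos_of_hypW hW)
  obtain ⟨N₁, hN₁, hC'⟩ := M.kC m' r b' hr (SEX.pos_of_hypW hW')
  obtain ⟨u, hum, huc, hp, hq⟩ := hW'
  obtain ⟨hP1, -⟩ := hP
  have hmU : IsMeagre (⋃ z : ℕ, {s : Fin p → ℂ | Function.Injective s ∧
      (Admc m b z (pt s ι k) ∧ NDc m b z (pt s ι k)) ∧
      (Admc m' b' u (pt s ι' k') ∧ NDc m' b' u (pt s ι' k')) ∧
      ∃ B, AlgB B ∧ ∃ J J', IsJc m b z (pt s ι k) J ∧ IsJc m' b' u (pt s ι' k') J' ∧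
        B * J = J' * B}) :=
    isMeagre_iUnion fun z => hZC p m m' r b b' z u ι ι' k k' i hk hk' hi hi' hp hq
  refine (((hP1 p r ι k hk N₀ hN₀).union (hP1 p r ι' k' hk' N₁ hN₁)).union hmU).mono ?_
  rintro s ⟨hinj, ⟨hs, hs'⟩, hno⟩
  by_contra hbad
  rw [Set.mem_union, Set.mem_union, not_or, not_or] at hbad
  obtain ⟨⟨hb0, hb1⟩, hb2⟩ := hbad
  refine hno fun T T' hc hc' N D hZ hD N' D' hZ' hD' => Or.inr fun h hh s₀ t₀ => ?_
  by_contra hn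
  obtain ⟨v, hv, hJ⟩ := hC _ hs (fun h => hb0 ⟨hinj, h⟩) hc T N D hZ
  obtain ⟨v', hv', hJ'⟩ := hC' _ hs' (fun h => hb1 ⟨hinj, h⟩) hc' T' N' D' hZ'
  obtain ⟨w, hw⟩ := exists_unit hum huc
  have hpw : D'.p w = sg m' r b' u := by rw [M.Pn T' m' r _ b' hc' N' D' hZ', hw]
  have hpn : D'.p (-w) = sg m' r b' (m' - u) := by
    have : NeZero m' := ⟨by have := hc'.1; omega⟩
    rw [M.Pn T' m' r _ b' hc' N' D' hZ', Hit_aux.neg_val hc'.1 w, hw]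
  have hsum : D'.p w + D'.p (-w) = r := (dim_all T' m' r D' hD'.hm hD'.dim w).2
  obtain ⟨s₁, θ, hθ, hθJ, -⟩ := (tkTs T T' m m' r r D D' hD hD' h hh s₀ t₀ hn).2 w (by omega)
    (by omega)
  obtain ⟨B, hB, hBJ⟩ := tkAs T T' m m' r D D' hD hD' v v' hv hv' h hh s₁ w θ hθ hθJ
  obtain ⟨J₁, hJ₁, -⟩ := M.kI T m r D hD.hm hD.dim v hv s₁
  obtain ⟨J₂, hJ₂, -⟩ := M.kI T' m' r D' hD'.hm hD'.dim v' hv' w
  have hm3 := hc.1
  have : NeZero m := ⟨by omega⟩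
  have hs₁m : (s₁ : ZMod m).val < m := ZMod.val_lt _
  have hs₁c : (s₁ : ZMod m).val.Coprime m := ZMod.val_coe_unit_coprime s₁
  refine hb2 (Set.mem_iUnion.2 ⟨(s₁ : ZMod m).val, hinj, ⟨⟨hs, hc, hs₁m, hs₁c⟩, (hJ s₁).1⟩,
    ⟨⟨hs', hc', hum, huc⟩, ?_⟩, B, hB, J₁, J₂, (hJ s₁).2 J₁ hJ₁, ?_, hBJ _ _ hJ₁ hJ₂⟩)
  · have := (hJ' w).1
    rwa [hw] at this
  · have := (hJ' w).2 J₂ hJ₂
    rwa [hw] at this

theorem pairC (M : ModsX) (hP : S_zP) (hZC : S_zC) (p m r : ℕ) (b : Fin (r + 1) → ℕ)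
    (m' : ℕ) (b' : Fin (r + 1) → ℕ) (ι ι' : Fin (r + 1) → Fin p) (k k' : Option (Fin p))
    (i : Fin p) (hk : Okk ι k) (hk' : Okk ι' k') (hi : i ∈ Bs ι' k') (hi' : i ∉ Bs ι k)
    (hr : 1 ≤ r) (hW : HypW m r b) (hW' : HypW m' r b') :
    IsMeagre {s : Fin p → ℂ | Function.Injective s ∧
      ¬ InG m r b m' r b' (pt s ι k) (pt s ι' k')} := by
  have hP2 := hP.2.1
  have hmU : IsMeagre (⋃ z : Equiv.Perm (Fin (r + 1)) × Equiv.Perm (Fin (r + 1)),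
      {s : Fin p → ℂ | Function.Injective s ∧
        (Inc (pt s (ι ∘ z.1) k) ∧ Inc (pt s (ι' ∘ z.2) k')) ∧
        ¬ InG m r (b ∘ z.1) m' r (b' ∘ z.2) (pt s (ι ∘ z.1) k) (pt s (ι' ∘ z.2) k')}) :=
    isMeagre_iUnion fun z => pairC_inc M hP hZC p m r (b ∘ z.1) m' (b' ∘ z.2) (ι ∘ z.1)
      (ι' ∘ z.2) k k' i (okk_comp hk z.1) (okk_comp hk' z.2) (by rw [bs_comp]; exact hi)
      (by rw [bs_comp]; exact hi') hr (hypW_perm z.1 hW) (hypW_perm z.2 hW')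
  refine (((hP2 p r ι k hk).union (hP2 p r ι' k' hk')).union hmU).mono ?_
  rintro s ⟨hinj, hno⟩
  by_contra hbad
  rw [Set.mem_union, Set.mem_union, not_or, not_or] at hbad
  obtain ⟨⟨hb0, hb1⟩, hb2⟩ := hbad
  have hb0' : ¬ ∀ σ : Equiv.Perm (Fin (r + 1)), ¬ Inc (pt s ι k ∘ σ) := fun h => hb0 ⟨hinj, h⟩
  have hb1' : ¬ ∀ σ : Equiv.Perm (Fin (r + 1)), ¬ Inc (pt s ι' k' ∘ σ) :=
    fun h => hb1 ⟨hinj, h⟩
  push Not at hb0' hb1'
  obtain ⟨σ, hσ⟩ := hb0'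
  obtain ⟨σ', hσ'⟩ := hb1'
  refine hb2 (Set.mem_iUnion.2 ⟨(σ, σ'), hinj, ?_, fun h => hno ?_⟩)
  · rw [pt_comp, pt_comp]
    exact ⟨hσ, hσ'⟩
  · rw [pt_comp, pt_comp] at h
    exact inG_perm σ σ' h

/-! ## All pairs of covers with four branch points -/

theorem pairG (K : ModsK) (hP : S_zP) (hZC : S_zC) (p m : ℕ) (b : Fin (2 + 1) → ℕ)
    (m' : ℕ) (b' : Fin (2 + 1) → ℕ) (ι : Fin (2 + 1) → Fin p) (ι' : Fin (2 + 1) → Fin p)
    (k k' : Option (Fin p)) (hk : Okk ι k) (hk' : Okk ι' k') (hW : HypW m 2 b)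
    (hW' : HypW m' 2 b') :
    IsMeagre {s : Fin p → ℂ | Function.Injective s ∧
      ¬ InG m 2 b m' 2 b' (pt s ι k) (pt s ι' k')} := by
  by_cases hB : Bs ι k = Bs ι' k'
  · obtain ⟨rfl, σ, rfl⟩ := bs_eq hk hk' hB
    refine (hP.1 p 2 ι k hk _ (pairL K m b m' (b' ∘ σ.symm) hW (hypW_perm σ.symm hW'))).mono ?_
    rintro s ⟨hinj, hs⟩
    refine ⟨hinj, fun h => hs (inG_perm (Equiv.refl _) σ.symm ?_)⟩
    have e1 : pt s (ι ∘ σ) k ∘ σ.symm = pt s ι k := by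
      rw [pt_comp]
      funext i
      simp only [Function.comp_apply, Equiv.apply_symm_apply]
    rw [e1]
    exact inG_of_inL h
  · have : ∃ i, (i ∈ Bs ι' k' ∧ i ∉ Bs ι k) ∨ (i ∈ Bs ι k ∧ i ∉ Bs ι' k') := by
      by_contra hno
      push Not at hno
      exact hB (Set.ext fun i => ⟨fun h => (hno i).2 h, fun h => (hno i).1 h⟩)
    obtain ⟨i, ⟨h1, h2⟩ | ⟨h1, h2⟩⟩ := this
    · exact pairC modsX hP hZC p m 2 b m' b' ι ι' k k' i hk hk' h1 h2 (by omega) hW hW'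
    · refine (pairC modsX hP hZC p m' 2 b' m b ι' ι k' k i hk' hk h1 h2 (by omega) hW' hW).mono ?_
      rintro s ⟨hs1, hs2⟩
      exact ⟨hs1, fun h => hs2 (inG_symm h)⟩

/-- The bad set of the pairs. -/
def MG (p : ℕ) : Set (Fin p → ℂ) :=
  ⋃ (m : ℕ) (b : Fin (2 + 1) → ℕ) (m' : ℕ) (b' : Fin (2 + 1) → ℕ)
    (ι : Fin (2 + 1) → Fin p) (ι' : Fin (2 + 1) → Fin p) (k : Option (Fin p))
    (k' : Option (Fin p)),
    {s | (Okk ι k ∧ Okk ι' k' ∧ HypW m 2 b ∧ HypW m' 2 b') ∧ Function.Injective s ∧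
      ¬ InG m 2 b m' 2 b' (pt s ι k) (pt s ι' k')}

theorem mg_meagre (K : ModsK) (hP : S_zP) (hZC : S_zC) (p : ℕ) : IsMeagre (MG p) := by
  refine isMeagre_iUnion fun m => isMeagre_iUnion fun b =>
    isMeagre_iUnion fun m' => isMeagre_iUnion fun b' =>
    isMeagre_iUnion fun ι => isMeagre_iUnion fun ι' => isMeagre_iUnion fun k =>
    isMeagre_iUnion fun k' => ?_
  by_cases h : Okk ι k ∧ Okk ι' k' ∧ HypW m 2 b ∧ HypW m' 2 b'
  · obtain ⟨h1, h2, h5, h6⟩ := h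
    exact (pairG K hP hZC p m b m' b' ι ι' k k' h1 h2 h5 h6).mono fun s hs => hs.2
  · refine (IsMeagre.empty (X := Fin p → ℂ)).mono fun s hs => ?_
    exact absurd hs.1 h

/-- The bad set of one cover with four branch points. -/
def MO (m r : ℕ) (b : Fin (r + 1) → ℕ) : Set (Fin (r + 1) → ℂ) :=
  {s | ∃ (b₂ : Fin (2 + 1) → ℕ) (s₂ : Fin (2 + 1) → ℂ), r = 2 ∧ HEq b b₂ ∧ HEq s s₂ ∧
    HypW m 2 b₂ ∧ Function.Injective s₂ ∧ ¬ (One m b₂ s₂ ∧ InL m b₂ m b₂ s₂ s₂)}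

theorem mo_meagre (K : ModsK) (m r : ℕ) (b : Fin (r + 1) → ℕ) : IsMeagre (MO m r b) := by
  by_cases hr : r = 2
  · subst hr
    by_cases hW : HypW m 2 b
    · refine ((single m b hW).union (pairL K m b m b hW hW)).mono ?_
      rintro s ⟨b₂, s₂, -, h1, h2, h3, h4, h5⟩
      obtain rfl := eq_of_heq h1
      obtain rfl := eq_of_heq h2
      by_contra h6
      rw [Set.mem_union, not_or] at h6
      exact h5 ⟨not_not.1 fun h => h6.1 ⟨h4, h⟩, not_not.1 h6.2⟩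
    · refine (IsMeagre.empty (X := Fin (2 + 1) → ℂ)).mono ?_
      rintro s ⟨b₂, s₂, -, h1, h2, h3, h4, h5⟩
      obtain rfl := eq_of_heq h1
      exact hW h3
  · refine (IsMeagre.empty (X := Fin (r + 1) → ℂ)).mono ?_
    rintro s ⟨b₂, s₂, h0, -⟩
    exact hr h0

/-- **Jng**: VERY GENERAL POINTS OF THE LINE, all cyclic covers with at least 4 branch points. For given meagre sets
`M m r b` there are meagre sets `M' p ⊆ ℂᵖ` such that for `s ∉ M' p` no `pt s ι k` is in any `M m r b`, for covers with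
4 branch points the characters are hit up to symmetries (`G1`), and any two covers are isogenous or independent. -/
def S_Jng : Prop :=
  ∀ M : (m r : ℕ) → (Fin (r + 1) → ℕ) → Set (Fin (r + 1) → ℂ), (∀ m r b, IsMeagre (M m r b)) →
  ∃ M' : (p : ℕ) → Set (Fin p → ℂ), (∀ p, IsMeagre (M' p)) ∧
    ∀ (p : ℕ) (s : Fin p → ℂ), s ∉ M' p → Function.Injective s ∧
      (∀ (m r : ℕ) (b : Fin (r + 1) → ℕ) (ι : Fin (r + 1) → Fin p) (k : Option (Fin p)),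
        Okk ι k → pt s ι k ∉ M m r b) ∧
      (∀ (m : ℕ) (b : Fin (2 + 1) → ℕ) (ι : Fin (2 + 1) → Fin p) (k : Option (Fin p)),
        Okk ι k → HypW m 2 b → IsCov m (pt s ι k) b →
        ∀ (T : AV) (N : New T m (pt s ι k) b) (D : Cyc T m), D.Z = N.Z → G1 D) ∧
      ∀ (m r : ℕ) (b : Fin (r + 1) → ℕ) (m' r' : ℕ) (b' : Fin (r' + 1) → ℕ)
        (ι : Fin (r + 1) → Fin p) (k : Option (Fin p)) (ι' : Fin (r' + 1) → Fin p)
        (k' : Option (Fin p)), Okk ι k → Okk ι' k' → 2 ≤ r → 2 ≤ r' →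
        HypW m r b → HypW m' r' b' → IsCov m (pt s ι k) b → IsCov m' (pt s ι' k') b' →
        ∀ (T T' : AV) (N : New T m (pt s ι k) b) (N' : New T' m' (pt s ι' k') b')
          (D : Cyc T m) (D' : Cyc T' m'), D.Z = N.Z → D'.Z = N'.Z → Isg T T' ∨ Ind D D'

/-- **Jng.** -/
theorem jng_of (K : ModsK) (hP : S_zP) (hZC : S_zC) : S_Jng := by
  intro M hM
  refine ⟨fun p => ((((SEZ.MP M p ∪ SEZ.MP MMx p) ∪ SEZ.MP MO p) ∪ MK p) ∪ MG p) ∪
      {s | ¬ Function.Injective s},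
    fun p => (((((SEZ.mp_meagre M hM hP p).union (SEZ.mp_meagre MMx SEB.tMx hP p)).union
      (SEZ.mp_meagre MO (mo_meagre K) hP p)).union (mk_meagre K hP hZC p)).union
      (mg_meagre K hP hZC p)).union (hP.2.2 p), ?_⟩
  intro p s hs
  rw [Set.mem_union, Set.mem_union, Set.mem_union, Set.mem_union, Set.mem_union, not_or, not_or,
    not_or, not_or, not_or] at hs
  obtain ⟨⟨⟨⟨⟨h1, h2⟩, h5⟩, h3⟩, h6⟩, h4⟩ := hs
  have hinj : Function.Injective s := not_not.1 h4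
  have hOne : ∀ (m : ℕ) (b : Fin (2 + 1) → ℕ) (ι : Fin (2 + 1) → Fin p) (k : Option (Fin p)),
      Okk ι k → HypW m 2 b → IsCov m (pt s ι k) b →
      ∀ (T : AV) (N : New T m (pt s ι k) b) (D : Cyc T m), D.Z = N.Z → G1 D := by
    intro m b ι k hk hW hc T N D hD
    have h7 := SEZ.notMem_mp hinj h5 m 2 b ι k hk
    have h8 : One m b (pt s ι k) ∧ InL m b m b (pt s ι k) (pt s ι k) := by
      by_contra hno
      exact h7 ⟨b, _, rfl, HEq.rfl, HEq.rfl, hW, hc.2.1, hno⟩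
    exact g1_of h8.1 h8.2 hc N D hD
  refine ⟨hinj, SEZ.notMem_mp hinj h1, hOne, ?_⟩
  intro m r b m' r' b' ι k ι' k' hk hk' hr hr' hW hW' hc hc' T T' N N' D D' hD hD'
  have key : ∀ (m r : ℕ) (b : Fin (r + 1) → ℕ) (ι : Fin (r + 1) → Fin p)
      (k : Option (Fin p)), Okk ι k → 2 ≤ r → HypW m r b → IsCov m (pt s ι k) b →
      ∀ (T : AV) (N : New T m (pt s ι k) b) (D : Cyc T m), D.Z = N.Z →
      GFs D r ∧ (r ≠ 2 → GFw D r) := by
    intro m r b ι k hk hr hW hc T N D hD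
    by_cases hr2 : r = 2
    · subst hr2
      exact ⟨(hOne m b ι k hk hW hc T N D hD).gfs, fun h => absurd rfl h⟩
    · have h7 := (gfw_of_MMx (by omega) hW hc (SEZ.notMem_mp hinj h2 m r b ι k hk) N D hD).1
      exact ⟨gfs_of_gfw h7, fun _ => h7⟩
  obtain ⟨g1, g2⟩ := key m r b ι k hk hr hW hc T N D hD
  obtain ⟨g1', g2'⟩ := key m' r' b' ι' k' hk' hr' hW' hc' T' N' D' hD'
  by_cases hrr : r = r'
  swap
  · exact Or.inr (ind_ne hrr g1 g1')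
  subst hrr
  by_cases hr2 : r = 2
  · subst hr2
    have h8 : InG m 2 b m' 2 b' (pt s ι k) (pt s ι' k') := by
      by_contra hno
      refine h6 ?_
      simp only [MG, Set.mem_iUnion]
      exact ⟨m, b, m', b', ι, ι', k, k', ⟨hk, hk', hW, hW'⟩, hinj, hno⟩
    exact h8 T T' hc hc' N D hD g1 N' D' hD' g1'
  · have h8 : InX m r b m' r b' (pt s ι k) (pt s ι' k') := by
      by_contra hno
      refine h3 ?_
      simp only [MK, Set.mem_iUnion]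
      exact ⟨m, r, b, m', r, b', ι, ι', k, k', ⟨hk, hk', hr, hW, hW'⟩, hinj, hno⟩
    exact h8 T T' hc hc' N D hD (g2 hr2) N' D' hD' (g2' hr2)

theorem tJng : S_Jng := jng_of modsK tzP zC'

/-! ## The symmetries of a cover -/

/-- A cover with at least 4 very general branch points, not of CM type, which has a character with `p s ≥ 2`:
admissible sets of characters are hit. -/
theorem sd_of_gfw {T : AV} {m r : ℕ} {D : Cyc T m} (h : GFw D r) :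
    ∃ Γ : SEN.Sd D, SEN.IsHitN Γ := by
  refine ⟨SEN.triv D h.hm, fun k hk _ F hF => h.hit k hk F fun s hs hn => ?_⟩
  have h1 := (hF s hs 1 (Subgroup.one_mem _)).2
  rw [one_mul] at h1
  exact h1 hn

theorem sd_of_g1 {T : AV} {m : ℕ} {D : Cyc T m} (h : G1 D) (hp : ∃ s, 2 ≤ D.p s) :
    ∃ Γ : SEN.Sd D, SEN.IsHitN Γ :=
  ⟨_, isHitN_sd h hp⟩

end SET
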