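import Pool.Agent.Lib.SE.T.SpecG
import Pool.Agent.Lib.SE.Big.Hl
import Pool.Agent.Lib.SE.Big.Bas
import Pool.Agent.Lib.SE.Big.Pj

/-!
# PROJECT SE-Q, module Cut: the trace condition cuts out a Lie algebra (helper94)
-/

set_option autoImplicit false

open Module

noncomputable section

namespace SET

open HC HC.E HC.SE SEB SEQ

namespace Cutg_aux

variable {T T' : AV} {m : ℕ}

theorem zet_mul [NeZero m] (g u : (ZMod m)ˣ) (k : ZMod m) :
    zet m (g * u) ^ k.val = zet m u ^ ((g : ZMod m) * k).val := by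
  have he : Complex.exp (2 * Real.pi * Complex.I / m) ^ m = 1 :=
    (Complex.isPrimitiveRoot_exp m (NeZero.ne m)).pow_eq_one
  unfold zet
  rw [← pow_mul, ← pow_mul]
  refine pow_eq_pow_of_modEq ?_ he
  rw [← ZMod.natCast_eq_natCast_iff]
  push_cast
  rw [ZMod.natCast_zmod_val, ZMod.natCast_zmod_val, ZMod.natCast_zmod_val, ZMod.natCast_zmod_val]
  ring

theorem trace_rat (Y : Module.End ℝ T.V) (hY : RatEnd T Y) :
    ∃ q : ℚ, LinearMap.trace ℝ T.V Y = q := by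
  classical
  obtain ⟨ι, _, b, hb1, hb2⟩ := exists_lat_basis' T
  have h1 : ∀ i, ∃ q : ℚ, b.repr (Y (b i)) i = q := by
    intro i
    obtain ⟨N, hN, h⟩ := hY (b i) (hb1 i)
    exact Hl_aux.coord b hb2 _ N hN h i
  choose q hq using h1
  refine ⟨∑ i, q i, ?_⟩
  rw [LinearMap.trace_eq_matrix_trace ℝ b, Matrix.trace]
  push_cast
  refine Finset.sum_congr rfl fun i _ => ?_
  rw [Matrix.diag_apply, LinearMap.toMatrix_apply, hq]

theorem pow_lat (D : Cyc T m) (j : ℕ) : ∀ v ∈ T.L, (D.ZR ^ j) v ∈ T.L := by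
  induction j with
  | zero =>
    intro v hv
    simpa using hv
  | succ j ih =>
    intro v hv
    rw [pow_succ', Module.End.mul_apply]
    exact D.lat _ (ih v hv)

theorem rat_mul (D : Cyc T m) (j : ℕ) (X : Module.End ℝ T.V) (hX : RatEnd T X) :
    RatEnd T (X * D.ZR ^ j) := by
  intro v hv
  exact hX _ (pow_lat D j v hv)

theorem comm_pow (D : Cyc T m) (j : ℕ) (X : Module.End ℝ T.V) (hX : ∀ v, X (D.Z v) = D.Z (X v)) :
    D.ZR ^ j * X = X * D.ZR ^ j := by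
  have h1 : Commute X D.ZR := LinearMap.ext fun v => hX v
  exact (h1.pow_right j).eq.symm

theorem trace_br (D : Cyc T m) (j : ℕ) (X Y : Module.End ℝ T.V)
    (hX : ∀ v, X (D.Z v) = D.Z (X v)) :
    LinearMap.trace ℝ T.V ((X * Y - Y * X) * D.ZR ^ j) = 0 := by
  rw [sub_mul, map_sub, mul_assoc, LinearMap.trace_mul_comm, mul_assoc Y (D.ZR ^ j) X,
    comm_pow D j X hX, mul_assoc, sub_self]

/-- the difference of the traces -/
def tau (D : Cyc T m) (D' : Cyc T' m) (i j : ℕ) : Pr2 T T' →ₗ[ℝ] ℝ where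
  toFun X := LinearMap.trace ℝ T.V (X.1 * D.ZR ^ i) - LinearMap.trace ℝ T'.V (X.2 * D'.ZR ^ j)
  map_add' X Y := by
    rw [Prod.fst_add, Prod.snd_add, add_mul, add_mul, map_add, map_add]
    ring
  map_smul' c X := by
    rw [Prod.smul_fst, Prod.smul_snd, smul_mul_assoc, smul_mul_assoc, map_smul, map_smul,
      RingHom.id_apply, smul_sub]

theorem trEq_iff (D : Cyc T m) (D' : Cyc T' m) (g : (ZMod m)ˣ) (X : Pr2 T T') :
    TrEq D D' g X ↔ ∀ k : ZMod m, tau D D' ((g : ZMod m) * k).val k.val X = 0 := by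
  refine forall_congr' fun k => ?_
  exact sub_eq_zero.symm

/-- the trace of `i` -/
theorem trace_J (hTrS : S_TrS) (hTrJ : S_TrJ) [NeZero m] (D : Cyc T m) (hm : 3 ≤ m) (j : ℕ) :
    ((LinearMap.trace ℝ T.V (mulI T * D.ZR ^ j) : ℝ) : ℂ) =
      ∑ u, zet m u ^ j * (Complex.I * ((D.p u : ℂ) - (D.p (-u) : ℂ))) := by
  have hc : ∀ v, mulI T (D.Z v) = D.Z (mulI T v) := by
    intro v
    rw [Hl_aux.mulI_apply, Hl_aux.mulI_apply, map_smul]
  have hst := (tBas tPj T m D hm).2.2.1 (mulI T) hc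
  let A : ∀ u, Module.End ℂ (Ws D u) := fun u => (pre (mulI T)).restrict (hst u)
  have hA : ∀ u (a : Ws D u), pre (mulI T) (a : Frm T) = (A u a : Frm T) := fun u a => rfl
  rw [hTrS T m D hm (mulI T) hc A hA j]
  refine Finset.sum_congr rfl fun u _ => ?_
  rw [(hTrJ T m D hm u (A u) (hA u)).1]

theorem tau_J (hTrS : S_TrS) (hTrJ : S_TrJ) [NeZero m] (D : Cyc T m) (D' : Cyc T' m) (hm : 3 ≤ m)
    (g : (ZMod m)ˣ) (hp : ∀ u, D.p u = D'.p (g * u)) (k : ZMod m) :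
    tau D D' ((g : ZMod m) * k).val k.val (mulI T, mulI T') = 0 := by
  have h1 : LinearMap.trace ℝ T.V (mulI T * D.ZR ^ ((g : ZMod m) * k).val) =
      LinearMap.trace ℝ T'.V (mulI T' * D'.ZR ^ k.val) := by
    have h2 : ((LinearMap.trace ℝ T.V (mulI T * D.ZR ^ ((g : ZMod m) * k).val) : ℝ) : ℂ) =
        ((LinearMap.trace ℝ T'.V (mulI T' * D'.ZR ^ k.val) : ℝ) : ℂ) := by
      rw [trace_J hTrS hTrJ D hm, trace_J hTrS hTrJ D' hm]
      refine Fintype.sum_equiv (Equiv.mulLeft g) _ _ fun u => ?_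
      rw [Equiv.coe_mulLeft, zet_mul, ← hp, ← mul_neg, ← hp]
    exact_mod_cast h2
  exact sub_eq_zero.2 h1

end Cutg_aux

open Cutg_aux in
theorem tCutg : S_TrS → S_TrJ → S_Cutg := by
  classical
  intro hTrS hTrJ T T' m r D D' hG hG' g hp h hh
  have hm : 3 ≤ m := hG.hm
  have : NeZero m := ⟨by omega⟩
  refine ⟨fun X hX => hh.rat X hX.1, fun X hX => hh.u X hX.1, ⟨hh.zero, ?_⟩, ?_, ?_, ?_, ?_⟩
  · rw [trEq_iff]
    intro k
    exact map_zero _
  · rintro X ⟨hX, hX'⟩ Y ⟨hY, hY'⟩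
    refine ⟨hh.add X hX Y hY, ?_⟩
    rw [trEq_iff] at hX' hY' ⊢
    intro k
    rw [map_add, hX', hY', add_zero]
  · rintro x X ⟨hX, hX'⟩
    refine ⟨hh.smul x X hX, ?_⟩
    rw [trEq_iff] at hX' ⊢
    intro k
    rw [map_smul, hX', smul_zero]
  · rintro X ⟨hX, -⟩ Y ⟨hY, -⟩
    refine ⟨hh.br X hX Y hY, ?_⟩
    intro k
    have h1 := trace_br D ((g : ZMod m) * k).val X.1 Y.1 (hh.u X hX).1.1
    have h2 := trace_br D' k.val X.2 Y.2 (hh.u X hX).2.1
    exact h1.trans h2.symm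
  · -- the multiplication by `i`
    obtain ⟨ι, _, b, hb1, hb2⟩ := exists_lat_basis' T
    obtain ⟨ι', _, b', hb1', hb2'⟩ := exists_lat_basis' T'
    let B := (b.linearMap b).prod (b'.linearMap b')
    let P : AddSubgroup (Pr2 T T') :=
      { carrier := h
        add_mem' := fun {X Y} hX hY => hh.add X hX Y hY
        zero_mem' := hh.zero
        neg_mem' := fun {X} hX => by
          have h1 := hh.smul (-1) X hX
          simpa using h1 }
    have hP1 : ∀ X ∈ P, ∀ q : ℚ, (q : ℝ) • X ∈ P := fun X hX q => hh.smul q X hX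
    have hP2 : ∀ X ∈ P, ∀ i, ∃ q : ℚ, B.repr X i = q := by
      intro X hX i
      rcases i with i | i
      · obtain ⟨q, hq⟩ := Hl_aux.entry b hb1 hb2 X.1 (hh.rat X hX).1 i
        exact ⟨q, by rw [← hq]; exact Basis.prod_repr_inl _ _ _ _⟩
      · obtain ⟨q, hq⟩ := Hl_aux.entry b' hb1' hb2' X.2 (hh.rat X hX).2 i
        exact ⟨q, by rw [← hq]; exact Basis.prod_repr_inr _ _ _ _⟩
    obtain ⟨S, hS⟩ := HC.Flat.sum_phi B ((mulI T, mulI T') : Pr2 T T')
    have hmem : ∀ s, HC.Flat.phi B s ((mulI T, mulI T') : Pr2 T T') ∈ P := fun s =>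
      HC.Flat.phi_mem B P hP1 hP2 _ hh.J s
    rw [hS]
    refine Submodule.sum_mem _ fun s hs => Submodule.smul_mem _ _
      (Submodule.subset_span ⟨hmem s, ?_⟩)
    rw [trEq_iff]
    intro k
    refine Hl_aux.num S (fun s => tau D D' ((g : ZMod m) * k).val k.val
      (HC.Flat.phi B s ((mulI T, mulI T') : Pr2 T T'))) ?_ ?_ s hs
    · intro s
      obtain ⟨q, hq⟩ := trace_rat _ (rat_mul D ((g : ZMod m) * k).val _ (hh.rat _ (hmem s)).1)
      obtain ⟨q', hq'⟩ := trace_rat _ (rat_mul D' k.val _ (hh.rat _ (hmem s)).2)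
      refine ⟨q - q', ?_⟩
      rw [Rat.cast_sub, ← hq, ← hq']
      rfl
    · have h1 := tau_J hTrS hTrJ D D' hm g hp k
      rw [hS, map_sum] at h1
      rw [← h1]
      refine Finset.sum_congr rfl fun s _ => ?_
      rw [map_smul, smul_eq_mul]

end SET
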