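import Pool.Agent.Lib.SE.Q.SpecH

/-!
# PROJECT SE-T: the modules of SE-G when only single characters are hit (helper64, after helper42)
-/

set_option autoImplicit false

open Module

noncomputable section

namespace SET

open HC HC.E HC.SE SEB SEQ

/-- Single characters are hit. -/
def IsHit1 {T : AV} {m : ℕ} (D : Cyc T m) : Prop :=
  ∀ h, HLie D h → ∀ s : (ZMod m)ˣ, Hits D h {s}

/-- The data of a factor of rank `r` such that single characters are hit. -/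
structure GFs {T : AV} {m : ℕ} (D : Cyc T m) (r : ℕ) : Prop where
  hm : 3 ≤ m
  hr : 2 ≤ r
  dim : 2 * finrank ℂ T.V = r * Nat.totient m
  hit : IsHit1 D

/-- **Th0g**: from a link to `θ`. PROOF. `P` as in `S_Th0`; `S_IntG`; in the second case compose
`θ : Ws D s ≃ Dual (Ws D' t)` with the inverse of `Ws D' (-t) ≃ Dual (Ws D' t)` (`S_Dua` for `-t`;
`gg (snd '' h)` is in the span of `pre Y`, `Y` in `u`). -/
def S_Th0g : Prop :=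
  S_Prj → S_Cl2 → S_Int → S_IntG → S_Dua →
  ∀ (T T' : AV) (m m' r : ℕ) (D : Cyc T m) (D' : Cyc T' m'), GFs D r → GFs D' r →
    ∀ h : Set (Pr2 T T'), HLie2 D D' h → ∀ s t, Lnk D D' h s t →
    (∃ θ : Ws D s ≃ₗ[ℂ] Ws D' t, Itw h θ) ∨ ∃ θ : Ws D s ≃ₗ[ℂ] Ws D' (-t), Itw h θ

/-- **R2t**: in rank 2 the sign does not matter. PROOF. `κ : Ws D' t ≃ Ws D' (-t)`: `S_Dua` for `-t`
(`Ws D' (-t) ≃ Dual (Ws D' t)`) and an alternating form `ω ≠ 0` on `Ws D' t` (dimension 2, `tDim`), for which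
traceless operators `A` satisfy `ω(A a, b) = -ω(a, A b)`; the elements of `gg2 h` are traceless on
`Ws D' t` (`S_Prj`, `tCl`). -/
def S_R2t : Prop :=
  S_Prj → S_Dua →
  ∀ (T T' : AV) (m m' : ℕ) (D : Cyc T m) (D' : Cyc T' m'), GFs D' 2 →
    ∀ h : Set (Pr2 T T'), HLie2 D D' h → ∀ s t, ∀ θ : Ws D s ≃ₗ[ℂ] Ws D' t, Itw h θ →
    ∃ θ' : Ws D s ≃ₗ[ℂ] Ws D' (-t), Itw h θ'

/-- **Jc**: `θ` respects the signatures. From `S_TrJ`. PROOF. `gg2 h` is closed under `[J, ·]` (`S_Cl2`), so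
`θ J θ⁻¹ - J'` commutes with all traceless operators of `Ws D' t` (`GFs.hit`, `S_Prj`): a scalar `c`.
`J² = -1 = J'²` gives `c (2 J' + c) = 0`. If `c ≠ 0`, `J' = -c/2` and `θ J θ⁻¹ = c/2` are scalars; a scalar `J`
is `± i`, of trace `± i r`, but the trace is `i (2 p(s) - r)` (`S_TrJ`, `tDim`), so `p(s) = 0` or `r`:
excluded. So `c = 0`, the traces are equal: `2 p(s) - r = 2 p'(t) - r`. -/
def S_Jc : Prop :=
  S_Prj → S_Cl2 → S_TrJ →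
  ∀ (T T' : AV) (m m' r : ℕ) (D : Cyc T m) (D' : Cyc T' m'), GFs D r → GFs D' r →
    ∀ h : Set (Pr2 T T'), HLie2 D D' h → ∀ s t, ∀ θ : Ws D s ≃ₗ[ℂ] Ws D' t, Itw h θ →
    0 < D.p s → D.p s < r → D'.p t = D.p s

/-- **Gtr**: GALOIS TRANSPORT of `θ`. From `S_Prj`, `S_RSH`, `S_GaH`. PROOF. `A = θ ∘ pj D s` intertwines the
`X ∈ Com2 h` (they commute with `Z`, `Z'`); `S_RSH`: `A = ∑ c_k preH Y_k`, `X.1 Y_k = Y_k X.2` for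
`X ∈ Com2 h`; some `Y = Y_k` has `pj D' t (preH Y a) ≠ 0` for some `a ∈ Ws D s`. `S_GaH` for `ρ⁻¹`:
`θ' = pj D' (ρ t) ∘ preH Y : Ws D (ρ s) → Ws D' (ρ t)` is not zero. It intertwines `gg2 h`; its kernel and
its image are stable under all traceless operators (`GFs.hit` for the projections, `S_Prj`), the
dimensions are `r ≥ 2` (`tDim`): it is bijective. -/
def S_Gtr : Prop :=
  S_Prj → S_RSH → S_GaH →
  ∀ (T T' : AV) (m m' r : ℕ) (D : Cyc T m) (D' : Cyc T' m'), GFs D r → GFs D' r →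
    ∀ h : Set (Pr2 T T'), HLie2 D D' h → ∀ s t, ∀ θ : Ws D s ≃ₗ[ℂ] Ws D' t, Itw h θ →
    ∀ (M : ℕ) (hM : m ∣ M) (hM' : m' ∣ M), M ≠ 0 → ∀ ρ : (ZMod M)ˣ,
    ∃ θ' : Ws D (rho hM ρ s) ≃ₗ[ℂ] Ws D' (rho hM' ρ t), Itw h θ'

/-- **Th1g**, **Cutg**, **Homg**, **Isog**: the modules of part B for `GFs` (the same proofs). -/
def S_Th1g : Prop :=
  S_Prj →
  ∀ (T T' : AV) (m m' r r' : ℕ) (D : Cyc T m) (D' : Cyc T' m'), GFs D r → GFs D' r' →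
    ∀ h : Set (Pr2 T T'), HLie2 D D' h → ∀ s t, ∀ θ : Ws D s ≃ₗ[ℂ] Ws D' t,
    (∀ C ∈ gg2 h, ∀ a b : Ws D s, (b : Frm T) = C.1 (a : Frm T) →
      (θ b : Frm T') = C.2 (θ a : Frm T')) →
    (∀ X ∈ h, ∀ (A : Module.End ℂ (Ws D s)) (B : Module.End ℂ (Ws D' t)),
      (∀ a : Ws D s, pre X.1 (a : Frm T) = (A a : Frm T)) →
      (∀ b : Ws D' t, pre X.2 (b : Frm T') = (B b : Frm T')) →
      LinearMap.trace ℂ (Ws D s) A = LinearMap.trace ℂ (Ws D' t) B) →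
    ∀ X ∈ h, ∀ a b : Ws D s, (b : Frm T) = pre X.1 (a : Frm T) →
      (θ b : Frm T') = pre X.2 (θ a : Frm T')

def S_Cutg : Prop :=
  ∀ (T T' : AV) (m r : ℕ) (D : Cyc T m) (D' : Cyc T' m), GFs D r → GFs D' r →
    ∀ g : (ZMod m)ˣ, (∀ u, D.p u = D'.p (g * u)) → ∀ h : Set (Pr2 T T'), HLie2 D D' h →
    HLie2 D D' {X | X ∈ h ∧ TrEq D D' g X}

def S_Homg : Prop :=
  ∀ (T T' : AV) (m r : ℕ) (D : Cyc T m) (D' : Cyc T' m), GFs D r → GFs D' r →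
    ∀ h : Set (Pr2 T T'), HLie2 D D' h → ∀ g s : (ZMod m)ˣ, ∀ θ : Ws D s ≃ₗ[ℂ] Ws D' (g * s),
    (∀ X ∈ h, ∀ a b : Ws D s, (b : Frm T) = pre X.1 (a : Frm T) →
      (θ b : Frm T') = pre X.2 (θ a : Frm T')) →
    ∃ Θ : T'.V →ₗ[ℂ] T.V, RatHom T' T (Θ.restrictScalars ℝ) ∧
      (∀ v, Θ (D'.Z v) = (D.Z ^ (g : ZMod m).val) (Θ v)) ∧
      (∀ X ∈ h, ∀ v, X.1 (Θ v) = Θ (X.2 v)) ∧
      ∃ a ∈ Ws D s, preH (Θ.restrictScalars ℝ) a ≠ 0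

def S_Isog : Prop :=
  ∀ (T T' : AV) (m r : ℕ) (D : Cyc T m) (D' : Cyc T' m), GFs D r → GFs D' r →
    ∀ h : Set (Pr2 T T'), HLie2 D D' h → ∀ (g s : (ZMod m)ˣ) (Θ : T'.V →ₗ[ℂ] T.V),
    RatHom T' T (Θ.restrictScalars ℝ) → (∀ v, Θ (D'.Z v) = (D.Z ^ (g : ZMod m).val) (Θ v)) →
    (∀ X ∈ h, ∀ v, X.1 (Θ v) = Θ (X.2 v)) →
    (∃ a ∈ Ws D s, preH (Θ.restrictScalars ℝ) a ≠ 0) → Function.Bijective Θ ∧ Isg T T'

def S_Lrg : Prop :=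
  S_Prj → S_Cl2 → S_Gt2 → S_LI2 →
  ∀ (T T' : AV) (m m' r r' : ℕ) (D : Cyc T m) (D' : Cyc T' m'), GFs D r → GFs D' r' →
    ∀ h : Set (Pr2 T T'), HLie2 D D' h → ∀ s t, Lnk D D' h s t → r = r' ∧
    ∀ (M : ℕ) (hM : m ∣ M) (hM' : m' ∣ M), M ≠ 0 → ∀ ρ : (ZMod M)ˣ,
      Lnk D D' h (rho hM ρ s) (rho hM' ρ t)

end SET
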