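import Pool.Agent.Lib.SE.N.Spec
import Pool.Agent.Lib.SE.T.SpecG
import Pool.Agent.Lib.SE.Big.Rib
import Pool.Agent.Lib.SE.Big.Perf
import Pool.Agent.Lib.SE.Big.Pj
import Pool.Agent.Lib.SE.Big.At0
import Pool.Agent.Lib.SE.Big.Dim
import Pool.Agent.Lib.HC.L.E.IsoInv

/-!
# PROJECT SE-T: the group of the symmetries of a factor of rank 2 (helper64)
-/

set_option autoImplicit false

open Module

noncomputable section

namespace SET

open HC HC.E HC.SE SEB SEQ

/-- There is a rational automorphism `Y` with `Y Z = Z ^ g Y`. -/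
def HasY {T : AV} {m : ℕ} (D : Cyc T m) (g : (ZMod m)ˣ) : Prop :=
  ∃ Y : T.V →ₗ[ℂ] T.V, RatEnd T (Y.restrictScalars ℝ) ∧
    (∀ v, Y (D.Z v) = (D.Z ^ (g : ZMod m).val) (Y v)) ∧ Function.Bijective Y

/-- A factor of rank 2: single characters are hit, two different characters are hit together or they are related
by a symmetry. -/
structure G1 {T : AV} {m : ℕ} (D : Cyc T m) : Prop where
  gfs : GFs D 2
  pair : ∀ h, HLie D h → ∀ s t, s ≠ t → s ≠ -t → ¬ Hits D h {s, t} →
    ∃ g : (ZMod m)ˣ, (t = g * s ∨ t = -(g * s)) ∧ HasY D g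

variable {T : AV} {m : ℕ} {D : Cyc T m}

theorem zpow_val (hm : 3 ≤ m) (a b : ZMod m) : D.Z ^ (a.val * b.val) = D.Z ^ (a * b).val := by
  have : NeZero m := ⟨by omega⟩
  have h1 : D.Z ^ m = 1 := (tPj T m D hm).1
  have h2 : (a * b).val ≡ a.val * b.val [MOD m] := by
    rw [← ZMod.natCast_eq_natCast_iff, ZMod.natCast_zmod_val, Nat.cast_mul, ZMod.natCast_zmod_val,
      ZMod.natCast_zmod_val]
  rw [← Nat.div_add_mod (a.val * b.val) m, pow_add, pow_mul, h1, one_pow, one_mul, ← h2,
    ← Nat.div_add_mod (a * b).val m, pow_add, pow_mul, h1, one_pow, one_mul, Nat.mul_add_mod,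
    Nat.mod_mod]

theorem y_pow {g : (ZMod m)ˣ} {Y : T.V →ₗ[ℂ] T.V}
    (hY : ∀ v, Y (D.Z v) = (D.Z ^ (g : ZMod m).val) (Y v)) (k : ℕ) (v : T.V) :
    Y ((D.Z ^ k) v) = (D.Z ^ ((g : ZMod m).val * k)) (Y v) := by
  induction k generalizing v with
  | zero => simp
  | succ k ih =>
    rw [pow_succ, Module.End.mul_apply, ih, hY, ← Module.End.mul_apply, ← pow_add, mul_add,
      mul_one]

theorem hasY_one (hm : 3 ≤ m) : HasY D 1 := by
  refine ⟨LinearMap.id, fun v hv => ⟨1, one_ne_zero, ?_⟩, fun v => ?_, Function.bijective_id⟩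
  · rw [one_smul]
    exact hv
  · have : (1 : ZMod m).val = 1 := ZMod.val_one'' (by omega)
    rw [Units.val_one, this, pow_one]
    rfl

theorem hasY_mul (hm : 3 ≤ m) {g g' : (ZMod m)ˣ} (h : HasY D g) (h' : HasY D g') :
    HasY D (g * g') := by
  obtain ⟨Y, h1, h2, h3⟩ := h
  obtain ⟨Y', h1', h2', h3'⟩ := h'
  refine ⟨Y ∘ₗ Y', ?_, fun v => ?_, h3.comp h3'⟩
  · intro v hv
    obtain ⟨N, hN, h4⟩ := h1' v hv
    obtain ⟨N', hN', h5⟩ := h1 _ h4
    refine ⟨N' * N, mul_ne_zero hN' hN, ?_⟩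
    have e : (N' * N) • ((Y ∘ₗ Y').restrictScalars ℝ) v =
        N' • (Y.restrictScalars ℝ) (N • (Y'.restrictScalars ℝ) v) := by
      rw [map_nsmul, smul_smul]
      rfl
    rw [e]
    exact h5
  · rw [LinearMap.comp_apply, h2', y_pow h2, zpow_val hm, Units.val_mul, LinearMap.comp_apply]

theorem hasY_inv (hm : 3 ≤ m) {g : (ZMod m)ˣ} (h : HasY D g) : HasY D g⁻¹ := by
  obtain ⟨Y, h1, h2, h3⟩ := h
  let e : T.V ≃ₗ[ℂ] T.V := LinearEquiv.ofBijective Y h3
  have he : ∀ v, e v = Y v := fun _ => rfl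
  refine ⟨(e.symm : T.V →ₗ[ℂ] T.V), ?_, fun v => ?_, e.symm.bijective⟩
  · exact HC.E.tIsoInv T T e h1
  · have key : Y ((D.Z ^ ((g⁻¹ : (ZMod m)ˣ) : ZMod m).val) (e.symm v)) = D.Z v := by
      rw [y_pow h2, zpow_val hm, ← Units.val_mul, mul_inv_cancel, Units.val_one]
      have : (1 : ZMod m).val = 1 := ZMod.val_one'' (by omega)
      rw [this, pow_one, ← he, e.apply_symm_apply]
    rw [← he] at key
    have := congrArg e.symm key
    rw [e.symm_apply_apply] at this
    exact this.symm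

theorem zet_mul (hm : 3 ≤ m) (g s : (ZMod m)ˣ) :
    zet m (g * s) = zet m s ^ (g : ZMod m).val := by
  have : NeZero m := ⟨by omega⟩
  have h0 : Complex.exp (2 * Real.pi * Complex.I / m) ^ m = 1 := by
    rw [← Complex.exp_nat_mul, Complex.exp_eq_one_iff]
    refine ⟨1, ?_⟩
    have : (m : ℂ) ≠ 0 := by exact_mod_cast (by omega : m ≠ 0)
    field_simp
    push_cast
    ring
  have h2 : ((g * s : (ZMod m)ˣ) : ZMod m).val ≡ (s : ZMod m).val * (g : ZMod m).val [MOD m] := by
    rw [← ZMod.natCast_eq_natCast_iff, ZMod.natCast_zmod_val, Nat.cast_mul, ZMod.natCast_zmod_val,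
      ZMod.natCast_zmod_val, Units.val_mul, mul_comm]
  unfold zet
  rw [← pow_mul]
  have key : ∀ a b : ℕ, a ≡ b [MOD m] → Complex.exp (2 * Real.pi * Complex.I / m) ^ a =
      Complex.exp (2 * Real.pi * Complex.I / m) ^ b := by
    intro a b hab
    rw [← Nat.div_add_mod a m, ← Nat.div_add_mod b m, pow_add, pow_add, pow_mul, pow_mul, h0,
      one_pow, one_pow, hab]
  exact key _ _ h2

/-- `p (g s) ≥ p s`. -/
theorem p_le (hm : 3 ≤ m) {g : (ZMod m)ˣ} (h : HasY D g) (s : (ZMod m)ˣ) :
    D.p s ≤ D.p (g * s) := by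
  obtain ⟨Y, h1, h2, h3⟩ := h
  have : FiniteDimensional ℂ (Frm T) := SEB.At0_aux.fin_frm T
  have hmem : ∀ a : Ws10 D s, pre (Y.restrictScalars ℝ) (a : Frm T) ∈ Ws10 D (g * s) := by
    rintro ⟨a, ha1, ha2⟩
    have ha : ∀ (k : ℕ) v, a ((D.Z ^ k) v) = zet m s ^ k * a v := by
      intro k
      induction k with
      | zero => intro v; simp
      | succ k ih =>
        intro v
        rw [pow_succ, Module.End.mul_apply, ih, ha1 v, pow_succ, mul_assoc]
    refine ⟨fun v => ?_, fun v => ?_⟩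
    · show a (Y (D.Z v)) = zet m (g * s) * a (Y v)
      rw [h2, ha, zet_mul hm]
    · show a (Y (Complex.I • v)) = Complex.I * a (Y v)
      rw [map_smul]
      exact ha2 _
  let f : Ws10 D s →ₗ[ℂ] Ws10 D (g * s) :=
    { toFun := fun a => ⟨pre (Y.restrictScalars ℝ) (a : Frm T), hmem a⟩
      map_add' := fun a b => Subtype.ext (map_add _ _ _)
      map_smul' := fun c a => Subtype.ext (map_smul _ _ _) }
  have hf : Function.Injective f := by
    intro a b hab
    apply Subtype.ext
    have h4 : pre (Y.restrictScalars ℝ) (a : Frm T) = pre (Y.restrictScalars ℝ) (b : Frm T) :=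
      congrArg Subtype.val hab
    refine LinearMap.ext fun v => ?_
    obtain ⟨w, rfl⟩ := h3.2 v
    exact LinearMap.congr_fun h4 w
  exact LinearMap.finrank_le_finrank_of_injective hf

/-- The symmetries of a factor with `p s = 2` for some `s`. -/
def sd (hm : 3 ≤ m) (hd : 2 * finrank ℂ T.V = 2 * Nat.totient m) (hp : ∃ s, 2 ≤ D.p s) :
    SEN.Sd D where
  S :=
    { carrier := {g | HasY D g}
      one_mem' := hasY_one hm
      mul_mem' := fun h h' => hasY_mul hm h h'
      inv_mem' := fun h => hasY_inv hm h }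
  neg := by
    intro h
    obtain ⟨s, hs⟩ := hp
    have h1 := p_le hm h s
    rw [neg_one_mul] at h1
    have h2 := (tDim tPj tTw (tBas tPj) T m 2 D hm hd s).2
    omega
  Θ := open Classical in fun g => if h : HasY D g then
    LinearEquiv.ofBijective h.choose h.choose_spec.2.2 else LinearEquiv.refl ℂ _
  rat := by
    intro g hg
    have hg' : HasY D g := hg
    rw [dif_pos hg']
    exact hg'.choose_spec.1
  com := by
    intro g hg v
    have hg' : HasY D g := hg
    rw [dif_pos hg']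
    exact hg'.choose_spec.2.1 v

/-! ## Ribet's lemma -/

open SEB.Rib_aux in
/-- One character, a finite set of other characters. -/
theorem one_step (hP : S_Perf) (D : Cyc T m)
    (h : Set (Module.End ℝ T.V)) (hh : HLie D h) (h1 : ∀ s, Hits D h {s})
    (a : (ZMod m)ˣ) (G : Finset (ZMod m)ˣ) (hG : ∀ b ∈ G, b ≠ a)
    (h2 : ∀ b ∈ G, Hits D h {a, b}) :
    ∀ A : Module.End ℂ (Ws D a), LinearMap.trace ℂ (Ws D a) A = 0 →
      ∃ C ∈ gg h, (∀ x : Ws D a, C (x : Frm T) = (A x : Frm T)) ∧
        ∀ b ∈ G, ∀ x : Ws D b, C (x : Frm T) = 0 := by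
  classical
  induction G using Finset.induction_on with
  | empty =>
    intro A hA
    obtain ⟨C, hC, hC1⟩ := h1 a (fun s => if hs : s = a then hs ▸ A else 0) (by
      intro s
      by_cases hs : s = a
      · subst hs
        simpa using hA
      · simp [hs])
    refine ⟨C, hC, fun x => ?_, fun b hb => absurd hb (Finset.notMem_empty b)⟩
    have h3 := hC1 a (Set.mem_singleton a) x
    simpa using h3
  | insert b G hb ih =>
    have ih' := ih (fun b' hb' => hG b' (Finset.mem_insert_of_mem hb'))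
      (fun b' hb' => h2 b' (Finset.mem_insert_of_mem hb'))
    have hba := hG b (Finset.mem_insert_self b G)
    intro A hA
    have hspan := hP (Ws D a) A hA
    clear hA
    induction hspan using Submodule.span_induction with
    | mem X hX =>
      obtain ⟨A1, A2, t1, t2, rfl⟩ := hX
      obtain ⟨C1, hC1, u1, u2⟩ := ih' A1 t1
      obtain ⟨C2, hC2, w⟩ := h2 b (Finset.mem_insert_self b G) (fun s => if hs : s = a then hs ▸ A2 else 0) (by
        intro s
        by_cases hs : s = a
        · subst hs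
          simpa using t2
        · simp [hs])
      have w1 : ∀ x : Ws D a, C2 (x : Frm T) = (A2 x : Frm T) := by
        intro x
        have h3 := w a (Set.mem_insert a _) x
        simpa using h3
      have w2 : ∀ x : Ws D b, C2 (x : Frm T) = 0 := by
        intro x
        have h3 := w b (Set.mem_insert_of_mem a (Set.mem_singleton b)) x
        simpa [hba] using h3
      refine ⟨C1 * C2 - C2 * C1, gg_comm hh C1 hC1 C2 hC2, ?_, ?_⟩
      · intro x
        rw [LinearMap.sub_apply, Module.End.mul_apply, Module.End.mul_apply, w1, u1, u1, w1]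
        rfl
      · intro b' hb' x
        rw [LinearMap.sub_apply, Module.End.mul_apply, Module.End.mul_apply]
        rcases Finset.mem_insert.1 hb' with hb'' | hb''
        · subst hb''
          have h3 := w2 ⟨C1 (x : Frm T), gg_pres hh C1 hC1 b' _ x.2⟩
          change C2 (C1 (x : Frm T)) = 0 at h3
          rw [w2, map_zero, h3, sub_zero]
        · have h3 := u2 b' hb'' ⟨C2 (x : Frm T), gg_pres hh C2 hC2 b' _ x.2⟩
          change C1 (C2 (x : Frm T)) = 0 at h3
          rw [u2 b' hb'', map_zero, h3, sub_zero]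
    | zero =>
      refine ⟨0, Submodule.zero_mem _, fun x => ?_, fun b' _ x => ?_⟩
      · simp
      · simp
    | add X Y _ _ hX hY =>
      obtain ⟨C, hC, p1, p2⟩ := hX
      obtain ⟨C', hC', q1, q2⟩ := hY
      refine ⟨C + C', Submodule.add_mem _ hC hC', fun x => ?_, fun b' hb' x => ?_⟩
      · rw [LinearMap.add_apply, LinearMap.add_apply, p1, q1]
        rfl
      · rw [LinearMap.add_apply, p2 b' hb', q2 b' hb', add_zero]
    | smul c X _ hX =>
      obtain ⟨C, hC, p1, p2⟩ := hX
      refine ⟨c • C, Submodule.smul_mem _ c hC, fun x => ?_, fun b' hb' x => ?_⟩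
      · rw [LinearMap.smul_apply, LinearMap.smul_apply, p1]
        rfl
      · rw [LinearMap.smul_apply, p2 b' hb', smul_zero]


/-- Ribet's lemma for a set of characters. -/
theorem rib (hm : 3 ≤ m) {h : Set (Module.End ℝ T.V)} (hh : HLie D h)
    (h1 : ∀ s, Hits D h {s}) (F : Set (ZMod m)ˣ)
    (h2 : ∀ s ∈ F, ∀ t ∈ F, t ≠ s → Hits D h {s, t}) : Hits D h F := by
  classical
  intro A hA
  have : NeZero m := ⟨by omega⟩
  have hex : ∀ a : (ZMod m)ˣ, ∃ C ∈ gg h, a ∈ F →
      (∀ x : Ws D a, C (x : Frm T) = (A a x : Frm T)) ∧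
        ∀ b ∈ F, b ≠ a → ∀ x : Ws D b, C (x : Frm T) = 0 := by
    intro a
    by_cases ha : a ∈ F
    · obtain ⟨C, hC, p1, p2⟩ := one_step tPerf D h hh h1 a
        (Finset.univ.filter fun b => b ∈ F ∧ b ≠ a) (by
          intro b hb
          rw [Finset.mem_filter] at hb
          exact hb.2.2) (by
          intro b hb
          rw [Finset.mem_filter] at hb
          exact h2 a ha b hb.2.1 hb.2.2) (A a) (hA a)
      refine ⟨C, hC, fun _ => ⟨p1, fun b hb hba x => p2 b ?_ x⟩⟩
      rw [Finset.mem_filter]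
      exact ⟨Finset.mem_univ _, hb, hba⟩
    · exact ⟨0, Submodule.zero_mem _, fun h => absurd h ha⟩
  choose C hC hC1 using hex
  refine ⟨∑ a ∈ Finset.univ.filter (fun a => a ∈ F), C a,
    Submodule.sum_mem _ fun a _ => hC a, fun s hs x => ?_⟩
  rw [LinearMap.sum_apply, Finset.sum_eq_single s]
  · exact (hC1 s hs).1 x
  · intro b hb hbs
    rw [Finset.mem_filter] at hb
    exact (hC1 b hb.2).2 s hs (Ne.symm hbs) x
  · intro h3
    exact absurd (Finset.mem_filter.2 ⟨Finset.mem_univ _, hs⟩) h3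

/-- **A factor of rank 2 with a character of signature `(2, 0)`**: all admissible sets are hit. -/
theorem isHitN_sd (hG : G1 D) (hp : ∃ s, 2 ≤ D.p s) :
    SEN.IsHitN (sd hG.gfs.hm hG.gfs.dim hp) := by
  intro h hh _ F hF
  refine rib hG.gfs.hm hh (hG.gfs.hit h hh) F fun s hs t ht hne => ?_
  by_contra hno
  have hst : s ≠ -t := by
    intro h1
    have h2 := (hF t ht 1 (Subgroup.one_mem _)).2
    rw [one_mul, ← h1] at h2
    exact h2 hs
  obtain ⟨g, hg, hY⟩ := hG.pair h hh s t (Ne.symm hne) hst hno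
  have h3 := hF s hs g hY
  rcases hg with rfl | rfl
  · exact hne (by rw [h3.1 ht, one_mul])
  · exact h3.2 ht

end SET
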