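import Pool.Agent.Lib.SE.T.SpecG
import Pool.Agent.Lib.SE.Big.Dim
import Pool.Agent.Lib.SE.Big.Bas
import Pool.Agent.Lib.SE.Big.Pj
import Pool.Agent.Lib.SE.Big.Tw

/-!
# PROJECT SE-Q, module Gtr: Galois transport of the isomorphism of eigenspaces (helper2)
-/

set_option autoImplicit false

open Module

noncomputable section

namespace SET

open HC HC.E HC.SE SEB SEQ

namespace Gtr_aux

variable {T T' : AV} {m m' : ℕ}

theorem ne_neg (hm : 3 ≤ m) (s : (ZMod m)ˣ) : -s ≠ s := by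
  intro h
  have h1 : (s : ZMod m) + s = 0 := by
    have h2 := congrArg (fun u : (ZMod m)ˣ => (u : ZMod m)) h
    have h3 : -(s : ZMod m) = s := h2
    calc (s : ZMod m) + s = -(s : ZMod m) + s := by rw [h3]
      _ = 0 := neg_add_cancel _
  have h4 : ((2 : ℕ) : ZMod m) = 0 := by
    have h5 : (2 : ZMod m) * s = 0 := by rw [two_mul, h1]
    have h6 := congrArg (fun x => x * ((s⁻¹ : (ZMod m)ˣ) : ZMod m)) h5
    simp only [mul_assoc, Units.mul_inv, mul_one, zero_mul] at h6
    exact_mod_cast h6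
  rw [ZMod.natCast_eq_zero_iff] at h4
  have := Nat.le_of_dvd (by norm_num) h4
  omega

/-- A single eigenspace is hit. -/
theorem upd {D : Cyc T m} (hm : 3 ≤ m) (hD : IsHit1 D) {h1 : Set (Module.End ℝ T.V)}
    (hh : HLie D h1) (s : (ZMod m)ˣ) (X : Module.End ℂ (Ws D s))
    (hX : LinearMap.trace ℂ (Ws D s) X = 0) :
    ∃ C ∈ gg h1, ∀ a : Ws D s, C (a : Frm T) = (X a : Frm T) := by
  classical
  have hs : Hits D h1 {s} := hD h1 hh s
  obtain ⟨C, hC, hCA⟩ := hs (Function.update (fun s' => (0 : Module.End ℂ (Ws D s'))) s X) (by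
    intro s'
    by_cases hb : s' = s
    · subst hb
      rw [Function.update_self]
      exact hX
    · rw [Function.update_of_ne hb, map_zero])
  refine ⟨C, hC, fun a => ?_⟩
  have h1 := hCA s rfl a
  rw [Function.update_self] at h1
  exact h1

/-- A subspace which is stable under all traceless operators is trivial. -/
theorem stab (W : Type) [AddCommGroup W] [Module ℂ W] [FiniteDimensional ℂ W]
    (K : Submodule ℂ W)
    (hK : ∀ A : Module.End ℂ W, LinearMap.trace ℂ W A = 0 → ∀ x ∈ K, A x ∈ K) (hne : K ≠ ⊤) :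
    K = ⊥ := by
  obtain ⟨w, hw⟩ : ∃ w, w ∉ K := by
    by_contra hc
    push Not at hc
    exact hne (eq_top_iff.2 fun x _ => hc x)
  rw [Submodule.eq_bot_iff]
  intro x hx
  by_contra hx0
  have hxw : x ∉ Submodule.span ℂ {w} := by
    intro hs
    obtain ⟨c, rfl⟩ := Submodule.mem_span_singleton.1 hs
    have hc : c ≠ 0 := by
      rintro rfl
      exact hx0 (zero_smul _ _)
    refine hw ?_
    have := K.smul_mem c⁻¹ hx
    rwa [smul_smul, inv_mul_cancel₀ hc, one_smul] at this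
  obtain ⟨f, hf, hf'⟩ := Submodule.exists_dual_map_eq_bot_of_notMem hxw inferInstance
  have hfw : f w = 0 := by
    have h1 : f w ∈ (Submodule.span ℂ {w}).map f :=
      Submodule.mem_map_of_mem (Submodule.mem_span_singleton_self w)
    rw [hf'] at h1
    exact (Submodule.mem_bot ℂ).1 h1
  have h1 := hK (f.smulRight ((f x)⁻¹ • w)) (by
    rw [LinearMap.trace_smulRight, map_smul, hfw, smul_zero]) x hx
  rw [LinearMap.smulRight_apply, smul_smul, mul_inv_cancel₀ hf, one_smul] at h1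
  exact hw h1

/-- The projectors commute with the operators which commute with `Z`. -/
theorem pj_comm (D : Cyc T m) (X : Module.End ℝ T.V) (hX : ∀ v, X (D.Z v) = D.Z (X v))
    (t : (ZMod m)ˣ) (f : Frm T) : pj D t (pre X f) = pre X (pj D t f) := by
  have hc : Commute (pre X) (pre D.ZR) := by
    refine LinearMap.ext fun f => LinearMap.ext fun v => ?_
    change f (D.ZR (X v)) = f (X (D.ZR v))
    exact congrArg f (hX v).symm
  have h1 : Commute (pre X) (pj D t) := by
    unfold pj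
    refine Commute.smul_right ?_ _
    refine Commute.sum_right _ _ _ fun k _ => ?_
    exact (hc.pow_right k).smul_right _
  exact (LinearMap.congr_fun h1.eq f).symm

variable {D : Cyc T m} {D' : Cyc T' m'} {h : Set (Pr2 T T')}

theorem com_sub (hh : HLie2 D D' h) {Y : Pr2 T T'} (hY : Y ∈ Com2 h) : Y ∈ h := by
  obtain ⟨X, hX, X', hX', rfl⟩ := hY
  exact hh.br X hX X' hX'

/-- Intertwining with the complex combinations of commutators. -/
theorem gg2_Y (Y : T'.V →ₗ[ℝ] T.V) (hY : ∀ X ∈ Com2 h, X.1 ∘ₗ Y = Y ∘ₗ X.2) :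
    ∀ C ∈ gg2 h, ∀ f : Frm T, preH Y (C.1 f) = C.2 (preH Y f) := by
  intro C hC
  unfold gg2 at hC
  induction hC using Submodule.span_induction with
  | mem C hC =>
    obtain ⟨X, hX, rfl⟩ := hC
    intro f
    refine LinearMap.ext fun v => ?_
    change f (X.1 (Y v)) = f (Y (X.2 v))
    exact congrArg f (LinearMap.congr_fun (hY X hX) v)
  | zero =>
    intro f
    exact map_zero (preH Y)
  | add C C' _ _ h1 h2 =>
    intro f
    rw [Prod.fst_add, Prod.snd_add, LinearMap.add_apply, LinearMap.add_apply, map_add, h1, h2]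
  | smul c C _ h1 =>
    intro f
    rw [Prod.smul_fst, Prod.smul_snd, LinearMap.smul_apply, LinearMap.smul_apply, map_smul, h1]

/-- The projectors commute with the second components. -/
theorem gg2_pj (hh : HLie2 D D' h) (τ : (ZMod m')ˣ) :
    ∀ C ∈ gg2 h, ∀ f : Frm T', pj D' τ (C.2 f) = C.2 (pj D' τ f) := by
  intro C hC
  unfold gg2 at hC
  induction hC using Submodule.span_induction with
  | mem C hC =>
    obtain ⟨X, hX, rfl⟩ := hC
    intro f
    exact pj_comm D' X.2 (hh.u X (com_sub hh hX)).2.1 τ f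
  | zero =>
    intro f
    exact map_zero (pj D' τ)
  | add C C' _ _ h1 h2 =>
    intro f
    rw [Prod.snd_add, LinearMap.add_apply, LinearMap.add_apply, map_add, h1, h2]
  | smul c C _ h1 =>
    intro f
    rw [Prod.smul_snd, LinearMap.smul_apply, LinearMap.smul_apply, map_smul, h1]

theorem rho_inv {M : ℕ} (hM : m ∣ M) (ρ : (ZMod M)ˣ) (s : (ZMod m)ˣ) :
    rho hM ρ⁻¹ (rho hM ρ s) = s := by
  unfold rho
  rw [map_inv, inv_mul_cancel_left]

end Gtr_aux

open Gtr_aux in
theorem tGtr : S_Gtr := by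
  intro hPrj hRSH hGaH T T' m m' r D D' g g' h hh s t θ hθ M hM hM' hM0 ρ
  obtain ⟨p1, -, p3, -, -⟩ := hPrj T T' m m' D D' h hh
  have hPj := tPj T m D g.hm
  have hPj' := tPj T' m' D' g'.hm
  have hdim : ∀ s, finrank ℂ (Ws D s) = r := fun s =>
    (tDim tPj tTw (tBas tPj) T m r D g.hm g.dim s).1
  have hdim' : ∀ t, finrank ℂ (Ws D' t) = r := fun t =>
    (tDim tPj tTw (tBas tPj) T' m' r D' g'.hm g'.dim t).1
  have hr := g.hr
  -- the intertwining operator of all forms
  let P : Frm T →ₗ[ℂ] Ws D s := LinearMap.codRestrict (Ws D s) (pj D s) (fun a => hPj.2.1 s a)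
  let A : Frm T →ₗ[ℂ] Frm T' := (Ws D' t).subtype ∘ₗ θ.toLinearMap ∘ₗ P
  have hA : ∀ X ∈ Com2 h, A ∘ₗ pre X.1 = pre X.2 ∘ₗ A := by
    intro X hX
    refine LinearMap.ext fun f => ?_
    have hC : pre2 X ∈ gg2 h := Submodule.subset_span ⟨X, hX, rfl⟩
    have hP : ((P (pre X.1 f) : Ws D s) : Frm T) = (pre2 X).1 ((P f : Ws D s) : Frm T) :=
      pj_comm D X.1 (hh.u X (com_sub hh hX)).1.1 s f
    exact hθ (pre2 X) hC (P f) (P (pre X.1 f)) hP
  obtain ⟨n, c, Y, hAY, hrat, hcom⟩ := hRSH T T' A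
  have hYc : ∀ k, ∀ X ∈ Com2 h, X.1 ∘ₗ Y k = Y k ∘ₗ X.2 := fun k X hX =>
    hcom X.1 X.2 (hh.rat X (com_sub hh hX)).1 (hh.rat X (com_sub hh hX)).2 (hA X hX) k
  -- a component which is not zero
  obtain ⟨k, a, ha, hne⟩ : ∃ k, ∃ a ∈ Ws D s, pj D' t (preH (Y k) a) ≠ 0 := by
    by_contra hc
    push Not at hc
    have hf : Module.Finite ℂ (Ws D s) := Module.finite_of_finrank_pos (by rw [hdim]; omega)
    have hnt : Nontrivial (Ws D s) := Module.nontrivial_of_finrank_pos (R := ℂ) (by rw [hdim]; omega)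
    obtain ⟨a, ha⟩ := exists_ne (0 : Ws D s)
    have h1 : A (a : Frm T) = ((θ a : Ws D' t) : Frm T') := by
      have h2 : P (a : Frm T) = a := Subtype.ext (hPj.2.2.1 s a a.2)
      change ((θ (P (a : Frm T)) : Ws D' t) : Frm T') = _
      rw [h2]
    have h2 : pj D' t (A (a : Frm T)) = ((θ a : Ws D' t) : Frm T') := by
      rw [h1]
      exact hPj'.2.2.1 t _ (θ a).2
    rw [hAY, LinearMap.sum_apply, map_sum] at h2
    have h3 : ((θ a : Ws D' t) : Frm T') = 0 := by
      rw [← h2]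
      refine Finset.sum_eq_zero fun k _ => ?_
      rw [LinearMap.smul_apply, map_smul, hc k a a.2, smul_zero]
    have h4 : θ a = 0 := Subtype.ext h3
    exact ha ((LinearEquiv.map_eq_zero_iff θ).1 h4)
  -- the transported map
  set σ := rho hM ρ s with hσ
  set τ := rho hM' ρ t with hτ
  obtain ⟨a', ha', hne'⟩ : ∃ a ∈ Ws D σ, pj D' τ (preH (Y k) a) ≠ 0 := by
    by_contra hc
    push Not at hc
    have h1 := hGaH T T' m m' D D' g.hm g'.hm M hM hM' hM0 (Y k) (hrat k) σ τ ρ⁻¹ hc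
    rw [hσ, hτ, rho_inv, rho_inv] at h1
    exact hne (h1 a ha)
  let Θ : Ws D σ →ₗ[ℂ] Ws D' τ := LinearMap.codRestrict (Ws D' τ)
    (pj D' τ ∘ₗ preH (Y k) ∘ₗ (Ws D σ).subtype) (fun a => hPj'.2.1 τ _)
  have hΘ : ∀ a : Ws D σ, ((Θ a : Ws D' τ) : Frm T') = pj D' τ (preH (Y k) (a : Frm T)) :=
    fun a => rfl
  have hint : ∀ C ∈ gg2 h, ∀ a b : Ws D σ, (b : Frm T) = C.1 (a : Frm T) →
      ((Θ b : Ws D' τ) : Frm T') = C.2 ((Θ a : Ws D' τ) : Frm T') := by
    intro C hC a b hab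
    rw [hΘ, hΘ, hab, gg2_Y (Y k) (hYc k) C hC, gg2_pj hh τ C hC]
  have hf : FiniteDimensional ℂ (Ws D σ) := Module.finite_of_finrank_pos (by rw [hdim]; omega)
  have hf' : FiniteDimensional ℂ (Ws D' τ) := Module.finite_of_finrank_pos (by rw [hdim']; omega)
  have hker : LinearMap.ker Θ = ⊥ := by
    refine stab (Ws D σ) (LinearMap.ker Θ) ?_ ?_
    · intro B hB x hx
      obtain ⟨C, hC, hCB⟩ := upd g.hm g.hit p1 σ B hB
      obtain ⟨C', hC', rfl⟩ := p3 C hC
      rw [LinearMap.mem_ker] at hx ⊢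
      have h1 := hint C' hC' x (B x) (hCB x).symm
      rw [hx] at h1
      refine Subtype.ext (h1.trans ?_)
      exact map_zero C'.2
    · intro htop
      have h1 : (⟨a', ha'⟩ : Ws D σ) ∈ LinearMap.ker Θ := by
        rw [htop]
        exact Submodule.mem_top
      rw [LinearMap.mem_ker] at h1
      refine hne' ?_
      have h2 := congrArg (fun x : Ws D' τ => (x : Frm T')) h1
      exact h2
  have hinj : Function.Injective Θ := LinearMap.ker_eq_bot.1 hker
  let e : Ws D σ ≃ₗ[ℂ] Ws D' τ :=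
    LinearEquiv.ofInjectiveOfFinrankEq Θ hinj (by rw [hdim, hdim'])
  refine ⟨e, fun C hC a b hab => ?_⟩
  exact hint C hC a b hab

end SET
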