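import Pool.Agent.Lib.SE.T.Pr
import Pool.Agent.Lib.SE.T.Gs

/-!
# PROJECT SE-T: one cover with four very general branch points (helper64)
-/

set_option autoImplicit false

open Module MeasureTheory Topology

noncomputable section

namespace SET

open HC HC.E HC.SE SEB SEQ SEG SEY SEX SEK

/-! ## Another Riemann form -/

/-- `GFs` does not depend on the Riemann form. -/
theorem gfs_congr {T : AV} {m r : ℕ} {D D₀ : Cyc T m} (h : D.Z = D₀.Z) (h0 : GFs D₀ r) :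
    GFs D r := by
  refine ⟨h0.hm, h0.hr, h0.dim, fun k hk s => ?_⟩
  obtain ⟨k₀, hk₀, h1⟩ := tHl T m D₀ k hk.rat (fun X hX Y hY => hk.lie.br X hX Y hY) hk.J
  exact SEZ.hits_congr h h1 (h0.hit k₀ hk₀ s)

theorem gfs_of_gfw {T : AV} {m r : ℕ} {D : Cyc T m} (h : GFw D r) : GFs D r := by
  refine ⟨h.hm, h.hr, h.dim, fun k hk s => h.hit k hk {s} ?_⟩
  intro t ht
  rw [Set.mem_singleton_iff] at ht
  rw [ht, Set.mem_singleton_iff]
  intro h1
  have h2 : ((s : (ZMod m)ˣ) : ZMod m) = -(s : ZMod m) := by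
    rw [← Units.val_neg, h1]
  have h3 : ((2 : ℕ) : ZMod m) * (s : ZMod m) = 0 := by
    push_cast
    linear_combination h2
  have h4 : ((2 : ℕ) : ZMod m) = 0 := by
    have := congrArg (fun x => x * ((s⁻¹ : (ZMod m)ˣ) : ZMod m)) h3
    simpa [mul_assoc] using this
  rw [ZMod.natCast_eq_zero_iff] at h4
  have := Nat.le_of_dvd (by norm_num) h4
  have := h.hm
  omega

/-! ## Single characters are hit -/

theorem single_inc (m : ℕ) (b : Fin (2 + 1) → ℕ) (hW : HypW m 2 b) :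
    IsMeagre {s : Fin (2 + 1) → ℂ | Inc s ∧ ¬ ∀ T : AV, IsCov m s b → ∀ (N : New T m s b)
      (E : T.V →ₗ[ℝ] T.V →ₗ[ℝ] ℝ) (hE : IsPol T N.Z E), GFs (mkCyc N hE) 2} := by
  have M := mods
  have M5 := mods5
  have M6 := mods8
  obtain ⟨u, hum, huc, hp, hq⟩ := hW
  by_cases hex : ∃ s : Fin (2 + 1) → ℂ, Inc s ∧ IsCov m s b
  · obtain ⟨s₀, hs₀, hc₀⟩ := hex
    have hK : ∀ u < m, u.Coprime m → Exq (mu m b u) ∧ ∀ n : ℤ, ∑ j, mu m b u j ≠ n :=
      fun u h1 h2 => ⟨(M5.Kap m 2 b u s₀ ⟨hs₀, hc₀, h1, h2⟩).2.1,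
        (M5.Kap m 2 b u s₀ ⟨hs₀, hc₀, h1, h2⟩).2.2.1⟩
    have hmN : IsMeagre (⋃ v : {v : ℕ // v < m ∧ v.Coprime m},
        {s : Fin (2 + 1) → ℂ | Inc s ∧ ¬ Nj (mu m b v.1) s}) :=
      isMeagre_iUnion fun v => M5.N 2 _ (hK v.1 v.2.1 v.2.2).1
    refine ((hmN.union (M5.AI 2 _ (hK u hum huc).1 (hK u hum huc).2)).union
      (cBa2' m 2 b u hp hq (Or.inr rfl))).mono ?_
    rintro s ⟨hs, hno⟩
    by_contra hbad
    rw [Set.mem_union, Set.mem_union, not_or, not_or] at hbad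
    obtain ⟨⟨hb0, hb1⟩, hb2⟩ := hbad
    refine hno fun T hc N E hE => ?_
    have hm : 3 ≤ m := hc.1
    have hNj : ∀ v < m, v.Coprime m → Nj (mu m b v) s := by
      intro v h1 h2
      by_contra h3
      exact hb0 (Set.mem_iUnion.2 ⟨⟨v, h1, h2⟩, hs, h3⟩)
    have hAdm : Admc m b u s := ⟨hs, hc, hum, huc⟩
    have hAI : AInd (fun k : Fin 2 => Ic (mu m b u) s k fun x => (1 : Polynomial ℂ).eval x) := by
      by_contra h
      exact hb1 ⟨hs, h⟩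
    let D : Cyc T m := mkCyc N hE
    obtain ⟨w, hw⟩ := exists_unit hum huc
    obtain ⟨B, hB⟩ := N.dif u hum huc 0 (sum_lt_of_sg_pos hp)
    have hBZ := M5.Bf T m 2 s b hc N u 0 B hB
    obtain ⟨v, hv, hvP⟩ := M5.Loop T m 2 s b hs hc N
    have hBv : ∀ k, B (v k) = Pc m b u s 1 k := by
      refine hvP u hum huc 1 B hBZ ?_
      intro x hx y hy
      rw [hB x hx y hy, pow_zero, Polynomial.eval_one]
    have hBW : (B.restrictScalars ℝ : Frm T) ∈ Ws D w := by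
      intro x
      have := hBZ x
      change B (N.Z x) = zet m w * B x
      rw [this, zet, hw]
    have hAI2 : AInd (fun k => (B.restrictScalars ℝ : Frm T) (v k)) := by
      refine AInd.mul hAI fun k => ⟨kap m b u k, ?_, ?_, ?_⟩
      · exact ((M5.Kap m 2 b u s hAdm).2.2.2 k).1
      · exact ((M5.Kap m 2 b u s hAdm).2.2.2 k).2
      · change B (v k) = _
        rw [hBv k, Pc]
    obtain ⟨hinj, hmat⟩ := M5.EB T m 2 D hm (by omega) N.dim w _ hBW v hv hAI2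
    have hHod := M5.Hod T m 2 s b hs hc hNj N D rfl v hvP
    obtain ⟨hND, hHit⟩ := M5.Hit T m 2 s b D hs hc hNj (by omega) N.dim v hinj hmat hHod w
    rw [hw] at hND hHit
    have hi : ∀ h, HLie D h → Hits D h {w} := by
      refine hHit ?_
      rintro ⟨g, hg, J, hJ, hJg⟩
      exact hb2 ⟨hAdm, hND, g, hg, J, hJ, hJg⟩
    exact ⟨hm, le_rfl, N.dim, fun h hh t =>
      M.All M.Bas M.Dim M.LI M.Cl T m 2 D hm le_rfl N.dim h hh w (hi h hh) t⟩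
  · refine (IsMeagre.empty (X := Fin (2 + 1) → ℂ)).mono ?_
    rintro s ⟨hs, hno⟩
    exact hno fun T hc => absurd ⟨s, hs, hc⟩ hex

/-- Single characters are hit, for all new parts. -/
def One (m : ℕ) (b : Fin (2 + 1) → ℕ) (s : Fin (2 + 1) → ℂ) : Prop :=
  ∀ T : AV, IsCov m s b → ∀ (N : New T m s b) (D : Cyc T m), D.Z = N.Z → GFs D 2

theorem single (m : ℕ) (b : Fin (2 + 1) → ℕ) (hW : HypW m 2 b) :
    IsMeagre {s : Fin (2 + 1) → ℂ | Function.Injective s ∧ ¬ One m b s} := by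
  refine (tcSo 2 (fun σ => {s : Fin (2 + 1) → ℂ | Inc s ∧ ¬ ∀ T : AV, IsCov m s (b ∘ σ) →
    ∀ (N : New T m s (b ∘ σ)) (E : T.V →ₗ[ℝ] T.V →ₗ[ℝ] ℝ) (hE : IsPol T N.Z E),
      GFs (mkCyc N hE) 2}) fun σ => single_inc m (b ∘ σ) (hypW_perm σ hW)).mono ?_
  rintro s ⟨hs, hno⟩ σ hσ
  refine ⟨hσ, fun hall => hno fun T hc N D hD => ?_⟩
  obtain ⟨-, h1, h2⟩ := tcPm T m 2 s b σ
  obtain ⟨N', hN'⟩ := h2 N
  obtain ⟨hE, hDE⟩ := cyc_eq N' D (hD.trans hN'.symm)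
  rw [← hDE]
  exact hall T (h1 hc) N' D.ψ hE

/-! ## Two characters of one cover -/

/-- The diagonal. -/
def dg {T : AV} (h : Set (Module.End ℝ T.V)) : Set (Pr2 T T) := {X | X.1 ∈ h ∧ X.2 = X.1}

theorem hLie2_dg {T : AV} {m : ℕ} {D : Cyc T m} {h : Set (Module.End ℝ T.V)} (hh : HLie D h) :
    HLie2 D D (dg h) where
  rat X hX := ⟨hh.rat _ hX.1, by rw [hX.2]; exact hh.rat _ hX.1⟩
  u X hX := ⟨hh.u _ hX.1, by rw [hX.2]; exact hh.u _ hX.1⟩
  zero := ⟨hh.lie.zero, rfl⟩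
  add X hX Y hY := ⟨hh.lie.add _ hX.1 _ hY.1, by
    rw [Prod.snd_add, Prod.fst_add, hX.2, hY.2]⟩
  smul x X hX := ⟨hh.lie.smul x _ hX.1, by rw [Prod.smul_snd, Prod.smul_fst, hX.2]⟩
  br X hX Y hY := ⟨hh.lie.br _ hX.1 _ hY.1, by
    show X.2 * Y.2 - Y.2 * X.2 = X.1 * Y.1 - Y.1 * X.1
    rw [hX.2, hY.2]⟩
  J := by
    refine Submodule.span_induction (p := fun X _ => ((X, X) : Pr2 T T) ∈
      Submodule.span ℝ (dg h)) (fun X hX => Submodule.subset_span ⟨hX, rfl⟩)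
      (Submodule.zero_mem _) ?_ ?_ hh.J
    · intro X Y _ _ h1 h2
      exact Submodule.add_mem _ h1 h2
    · intro c X _ h1
      exact Submodule.smul_mem _ c h1

theorem gg_dg {T : AV} {h : Set (Module.End ℝ T.V)} :
    ∀ C ∈ gg2 (dg h), C.2 = C.1 ∧ C.1 ∈ gg h := by
  intro C hC
  refine Submodule.span_induction (p := fun C _ => C.2 = C.1 ∧ C.1 ∈ gg h) ?_ ?_ ?_ ?_ hC
  · rintro _ ⟨_, ⟨X, hX, Y, hY, rfl⟩, rfl⟩
    refine ⟨?_, Submodule.subset_span ⟨_, ⟨X.1, hX.1, Y.1, hY.1, rfl⟩, rfl⟩⟩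
    show pre (X.2 * Y.2 - Y.2 * X.2) = pre (X.1 * Y.1 - Y.1 * X.1)
    rw [hX.2, hY.2]
  · exact ⟨rfl, Submodule.zero_mem _⟩
  · rintro C C' _ _ ⟨h1, h2⟩ ⟨h3, h4⟩
    exact ⟨by rw [Prod.snd_add, Prod.fst_add, h1, h3], Submodule.add_mem _ h2 h4⟩
  · rintro c C _ ⟨h1, h2⟩
    exact ⟨by rw [Prod.smul_snd, Prod.smul_fst, h1], Submodule.smul_mem _ c h2⟩

/-- Outside a meagre set a link gives a symmetry. -/
theorem g1_of {m : ℕ} {b : Fin (2 + 1) → ℕ} {s : Fin (2 + 1) → ℂ} (h1 : One m b s)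
    (h2 : InL m b m b s s) {T : AV} (hc : IsCov m s b) (N : New T m s b) (D : Cyc T m)
    (hD : D.Z = N.Z) : G1 D := by
  classical
  have hG := h1 T hc N D hD
  refine ⟨hG, fun h hh s' t' hne hne' hno => ?_⟩
  have h3 : ¬ Hit2 D D (dg h) s' t' := by
    intro hH
    apply hno
    intro A hA
    obtain ⟨C, hC, e1, e2⟩ := hH (A s') (A t') (hA s') (hA t')
    obtain ⟨e3, e4⟩ := gg_dg C hC
    refine ⟨C.1, e4, fun x hx a => ?_⟩
    rcases hx with rfl | hx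
    · exact e1 a
    · rw [Set.mem_singleton_iff] at hx
      subst hx
      rw [← e3]
      exact e2 a
  obtain ⟨-, g, hg, Θ, k1, k2, k3⟩ := h2 T T hc hc N D hD hG N D hD hG (dg h) (hLie2_dg hh)
    s' t' h3
  have : NeZero m := ⟨by have := hG.hm; omega⟩
  refine ⟨g, ?_, Θ, k1, k2, k3⟩
  rcases hg with h4 | h4
  · exact Or.inl (Units.ext (ZMod.val_injective m h4))
  · exact Or.inr (Units.ext (ZMod.val_injective m h4))

end SET
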