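import Pool.Agent.Lib.SE.T.Sim
import Pool.Agent.Lib.SE.K.Main

/-!
# PROJECT SE-T: two covers with the same four branch points (helper64)
-/

set_option autoImplicit false

open Module MeasureTheory Topology

noncomputable section

namespace SET

open HC HC.E HC.SE SEB SEQ SEG SEY SEX SEK

/-- What a link of `s₀` and `t₀` gives. -/
def Lto {T T' : AV} {m m' : ℕ} (D : Cyc T m) (D' : Cyc T' m') (s₀ : (ZMod m)ˣ)
    (t₀ : (ZMod m')ˣ) : Prop :=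
  Isg T T' ∧ ∃ g : (ZMod m)ˣ, ((t₀ : ZMod m').val = ((g * s₀ : (ZMod m)ˣ) : ZMod m).val ∨
    (t₀ : ZMod m').val = ((-(g * s₀) : (ZMod m)ˣ) : ZMod m).val) ∧
    ∃ Θ : T'.V →ₗ[ℂ] T.V, RatHom T' T (Θ.restrictScalars ℝ) ∧
      (∀ v, Θ (D'.Z v) = (D.Z ^ (g : ZMod m).val) (Θ v)) ∧ Function.Bijective Θ

/-- Characters of two covers are hit together or are linked by an isogeny. -/
def InL (m : ℕ) (b : Fin (2 + 1) → ℕ) (m' : ℕ) (b' : Fin (2 + 1) → ℕ)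
    (s s' : Fin (2 + 1) → ℂ) : Prop :=
  ∀ T T' : AV, IsCov m s b → IsCov m' s' b' → ∀ (N : New T m s b) (D : Cyc T m), D.Z = N.Z →
    GFs D 2 → ∀ (N' : New T' m' s' b') (D' : Cyc T' m'), D'.Z = N'.Z → GFs D' 2 →
    ∀ h, HLie2 D D' h → ∀ s₀ t₀, ¬ Hit2 D D' h s₀ t₀ → Lto D D' s₀ t₀

theorem pairL_inc (K : ModsK) (m : ℕ) (b : Fin (2 + 1) → ℕ) (m' : ℕ) (b' : Fin (2 + 1) → ℕ)
    (hW : HypW m 2 b) (hW' : HypW m' 2 b') :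
    IsMeagre {s : Fin (2 + 1) → ℂ | Inc s ∧ ¬ InL m b m' b' s s} := by
  have M := modsX
  obtain ⟨N₀, hN₀, hC⟩ := M.kC m 2 b (by omega) (SEX.pos_of_hypW hW)
  obtain ⟨N₁, hN₁, hC'⟩ := M.kC m' 2 b' (by omega) (SEX.pos_of_hypW hW')
  obtain ⟨u, hum, huc, hp, hq⟩ := hW'
  have hmU : IsMeagre (⋃ z : {z : ℕ // ¬ Rk (mu m b z) (mu m' b' u) ∧ 0 < sg m 2 b z ∧
      0 < sg m 2 b (m - z)}, {s : Fin (2 + 1) → ℂ | AdX m b z.1 m' b' u s ∧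
        LkB m b z.1 m' b' u s}) :=
    isMeagre_iUnion fun z => K.q6 m m' b b' z.1 u z.2.1 z.2.2.1 z.2.2.2
  refine ((hN₀.union hN₁).union hmU).mono ?_
  rintro s ⟨hs, hno⟩
  by_contra hbad
  rw [Set.mem_union, Set.mem_union, not_or, not_or] at hbad
  obtain ⟨⟨hb0, hb1⟩, hb2⟩ := hbad
  refine hno fun T T' hc hc' N D hZ hD N' D' hZ' hD' h hh s₀ t₀ hn => ?_
  obtain ⟨v, hv, hJ⟩ := hC s hs hb0 hc T N D hZ
  obtain ⟨v', hv', hJ'⟩ := hC' s hs hb1 hc' T' N' D' hZ'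
  obtain ⟨w, hw⟩ := exists_unit hum huc
  have hpw : D'.p w = sg m' 2 b' u := by rw [M.Pn T' m' 2 s b' hc' N' D' hZ', hw]
  have hpn : D'.p (-w) = sg m' 2 b' (m' - u) := by
    have : NeZero m' := ⟨by have := hc'.1; omega⟩
    rw [M.Pn T' m' 2 s b' hc' N' D' hZ', Hit_aux.neg_val hc'.1 w, hw]
  have hsum : D'.p w + D'.p (-w) = 2 := (dim_all T' m' 2 D' hD'.hm hD'.dim w).2
  obtain ⟨s₁, θ, hθ, hθJ, ρ, hρ, hρ'⟩ := (tkTs T T' m m' 2 2 D D' hD hD' h hh s₀ t₀ hn).2 w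
    (by omega) (by omega)
  obtain ⟨B, hB, hBJ⟩ := tkAs T T' m m' 2 D D' hD hD' v v' hv hv' h hh s₁ w θ hθ hθJ
  obtain ⟨J₁, hJ₁, -⟩ := M.kI T m 2 D hD.hm hD.dim v hv s₁
  obtain ⟨J₂, hJ₂, -⟩ := M.kI T' m' 2 D' hD'.hm hD'.dim v' hv' w
  have hm3 := hc.1
  have : NeZero m := ⟨by omega⟩
  have hs₁m : (s₁ : ZMod m).val < m := ZMod.val_lt _
  have hs₁c : (s₁ : ZMod m).val.Coprime m := ZMod.val_coe_unit_coprime s₁
  have hA : Admc m b (s₁ : ZMod m).val s := ⟨hs, hc, hs₁m, hs₁c⟩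
  have hA' : Admc m' b' u s := ⟨hs, hc', hum, huc⟩
  have hN : NDc m b (s₁ : ZMod m).val s := (hJ s₁).1
  have hN' : NDc m' b' u s := by
    have := (hJ' w).1
    rwa [hw] at this
  have hJc : IsJc m b (s₁ : ZMod m).val s J₁ := (hJ s₁).2 J₁ hJ₁
  have hJc' : IsJc m' b' u s J₂ := by
    have := (hJ' w).2 J₂ hJ₂
    rwa [hw] at this
  have hrel := hBJ _ _ hJ₁ hJ₂
  obtain ⟨hsg1, hsg2⟩ := SEX.sg_eq M hA hN hA' hN' hB.1 hJc hJc' hrel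
  have hRk : Rk (mu m b (s₁ : ZMod m).val) (mu m' b' u) := by
    by_contra hne
    refine hb2 (Set.mem_iUnion.2 ⟨⟨(s₁ : ZMod m).val, hne, by omega, by omega⟩,
      ⟨hA, hN, hA', hN'⟩, B, hB, ?_⟩)
    intro J J' h1 h2
    obtain ⟨J₃, -, h3, -⟩ := M.Jx m 2 b _ s hA hN
    obtain ⟨J₄, -, h4, -⟩ := M.Jx m' 2 b' _ s hA' hN'
    rw [h3 J h1, h4 J' h2, ← h3 J₁ hJc, ← h4 J₂ hJc']
    exact hrel
  obtain ⟨rfl, v₁, hv₁, hU⟩ := K.q4 m m' b b' _ u s s hc hc' hs₁m hs₁c hum huc (by omega)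
    (by omega) hRk
  -- the unit for `v₁` and the link
  obtain ⟨w₁, hww, hw₁, θ₁, hθ₁⟩ : ∃ w₁ : (ZMod m)ˣ, (w₁ = w ∨ w₁ = -w) ∧
      (w₁ : ZMod m).val = v₁ ∧ ∃ θ₁ : Ws D s₁ ≃ₗ[ℂ] Ws D' w₁, Itw h θ₁ := by
    rcases hv₁ with rfl | rfl
    · exact ⟨w, Or.inl rfl, hw, θ, hθ⟩
    · refine ⟨-w, Or.inr rfl, by rw [Hit_aux.neg_val hc'.1 w, hw], ?_⟩
      exact tR2t tPrj tDua T T' m m D D' hD' h hh s₁ w θ hθ
  obtain ⟨g, rfl⟩ : ∃ g : (ZMod m)ˣ, w₁ = g * s₁ := ⟨w₁ * s₁⁻¹, (inv_mul_cancel_right _ _).symm⟩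
  obtain ⟨k1, Θ, k2, k3, k4⟩ := same_isgs hD hD' g (fun x => by
    rw [M.Pn T m 2 s b hc N D hZ, M.Pn T' m 2 s b' hc' N' D' hZ']
    refine hU ((x * s₁⁻¹ : (ZMod m)ˣ) : ZMod m).val _ _ (ZMod.val_coe_unit_coprime _) ?_ ?_
    · rw [← ZMod.natCast_eq_natCast_iff, Nat.cast_mul, ZMod.natCast_zmod_val,
        ZMod.natCast_zmod_val, ZMod.natCast_zmod_val, ← Units.val_mul]
      exact congrArg Units.val (inv_mul_cancel_right x s₁).symm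
    · rw [← ZMod.natCast_eq_natCast_iff, ← hw₁, Nat.cast_mul, ZMod.natCast_zmod_val,
        ZMod.natCast_zmod_val, ZMod.natCast_zmod_val, ← Units.val_mul]
      refine congrArg Units.val ?_
      rw [mul_comm g s₁, ← mul_assoc, inv_mul_cancel_right, mul_comm]) hh s₁ θ₁ hθ₁
  refine ⟨k1, g, ?_, Θ, k2, k3, k4⟩
  unfold SEQ.rho at hρ hρ'
  -- `t₀ = ± g s₀`
  have key : t₀ = g * s₀ ∨ t₀ = -(g * s₀) := by
    set κ := ZMod.unitsMap (dvd_mul_right m m) ρ with hκ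
    have e1 : κ * s₀ = s₁ := hρ
    have e2 : κ * t₀ = w ∨ κ * t₀ = -w := hρ'
    have e3 : κ * t₀ = g * s₁ ∨ κ * t₀ = -(g * s₁) := by
      rcases hww with h1 | h1 <;> rcases e2 with h2 | h2
      · exact Or.inl (h2.trans h1.symm)
      · exact Or.inr (by rw [h2, h1])
      · exact Or.inr (by rw [h2, h1, neg_neg])
      · exact Or.inl (h2.trans h1.symm)
    rcases e3 with h1 | h1
    · left
      have : κ * t₀ = κ * (g * s₀) := by rw [h1, ← e1]; exact mul_left_comm _ _ _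
      exact mul_left_cancel this
    · right
      have : κ * t₀ = κ * (-(g * s₀)) := by
        rw [h1, ← e1, mul_neg, mul_left_comm]
      exact mul_left_cancel this
  rcases key with rfl | rfl
  · exact Or.inl rfl
  · exact Or.inr rfl

/-- `InL` does not depend on the order of the branch points. -/
theorem inL_perm {m : ℕ} {b : Fin (2 + 1) → ℕ} {m' : ℕ} {b' : Fin (2 + 1) → ℕ}
    {s : Fin (2 + 1) → ℂ} {s' : Fin (2 + 1) → ℂ} (σ : Equiv.Perm (Fin (2 + 1)))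
    (σ' : Equiv.Perm (Fin (2 + 1)))
    (h : InL m (b ∘ σ) m' (b' ∘ σ') (s ∘ σ) (s' ∘ σ')) : InL m b m' b' s s' := by
  intro T T' hc hc' N D hZ hD N' D' hZ' hD'
  obtain ⟨-, h1, h2⟩ := modsX.Pm T m 2 s b σ
  obtain ⟨N₁, hN₁⟩ := h2 N
  obtain ⟨-, h1', h2'⟩ := modsX.Pm T' m' 2 s' b' σ'
  obtain ⟨N₂, hN₂⟩ := h2' N'
  exact h T T' (h1 hc) (h1' hc') N₁ D (hZ.trans hN₁.symm) hD N₂ D' (hZ'.trans hN₂.symm) hD'

theorem pairL (K : ModsK) (m : ℕ) (b : Fin (2 + 1) → ℕ) (m' : ℕ) (b' : Fin (2 + 1) → ℕ)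
    (hW : HypW m 2 b) (hW' : HypW m' 2 b') :
    IsMeagre {s : Fin (2 + 1) → ℂ | ¬ InL m b m' b' s s} := by
  refine (tcSo 2 (fun σ => {s : Fin (2 + 1) → ℂ | Inc s ∧
    ¬ InL m (b ∘ σ) m' (b' ∘ σ) s s}) fun σ => pairL_inc K m (b ∘ σ) m' (b' ∘ σ)
      (hypW_perm σ hW) (hypW_perm σ hW')).mono ?_
  rintro s hno σ hσ
  exact ⟨hσ, fun h => hno (inL_perm σ σ h)⟩

end SET
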