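import Pool.Agent.Lib.SE.T.SpecG
import Pool.Agent.Lib.SE.Y.Spec
import Pool.Agent.Lib.SE.Big.fA
import Pool.Agent.Lib.SE.G.Jc
import Pool.Agent.Lib.SE.Q.Prj

/-!
# PROJECT SE-Y, module kA: coordinates of a link between two varieties (helper61, after SE/Big/fA.lean)
-/

set_option autoImplicit false

open Module

noncomputable section

namespace SET

open HC HC.E HC.SE SEB SEQ SEY

/-- `SEY.S_kA` for `GFs`. -/
def S_kAs : Prop :=
  ∀ (T T' : AV) (m m' r : ℕ) (D : Cyc T m) (D' : Cyc T' m'), GFs D r → GFs D' r →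
    ∀ (v : Fin r → T.V) (v' : Fin r → T'.V), Crd D v → Crd D' v' →
    ∀ h : Set (Pr2 T T'), HLie2 D D' h → ∀ s t, ∀ θ : Ws D s ≃ₗ[ℂ] Ws D' t, Itw h θ →
    (∀ a b : Ws D s, (b : Frm T) = pre (mulI T) (a : Frm T) →
      (θ b : Frm T') = pre (mulI T') (θ a : Frm T')) →
    ∃ B : Module.End ℂ (Fin r → ℂ), AlgB B ∧
      ∀ J J', IsJv D v s J → IsJv D' v' t J' → B * J = J' * B

namespace kA_aux

open SEB.fA_aux SEB.At0_aux SEB.Per_aux SEB.cHit_aux

variable {T : AV} {m r : ℕ} {D : Cyc T m}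

/-- The coordinates on an eigenspace. -/
theorem crd (hm : 3 ≤ m) (hd : 2 * finrank ℂ T.V = r * Nat.totient m) {v : Fin r → T.V}
    (hv : Crd D v) (t : (ZMod m)ˣ) :
    ∃ e : Ws D t ≃ₗ[ℂ] (Fin r → ℂ), ∀ (a : Ws D t) k, e a k = (a : Frm T) (v k) := by
  have := fin_frm T
  have hPhi : Function.Injective (Phi D t v) := by
    rw [← LinearMap.ker_eq_bot, LinearMap.ker_eq_bot']
    intro a ha
    apply Subtype.ext
    exact hv.inj t a a.2 fun k => congrFun ha k
  have hfr : finrank ℂ (Ws D t) = finrank ℂ (Fin r → ℂ) := by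
    rw [(tDim tPj tTw (tBas tPj) T m r D hm hd t).1, finrank_fintype_fun_eq_card, Fintype.card_fin]
  have hsur : Function.Surjective (Phi D t v) :=
    (LinearMap.injective_iff_surjective_of_finrank_eq_finrank hfr).1 hPhi
  exact ⟨LinearEquiv.ofBijective (Phi D t v) ⟨hPhi, hsur⟩, fun _ _ => rfl⟩

/-- The operators in coordinates have algebraic entries. -/
theorem algX (hm : 0 < m) {v : Fin r → T.V} (hv : Crd D v) (t : (ZMod m)ˣ)
    (e : Ws D t ≃ₗ[ℂ] (Fin r → ℂ)) (he : ∀ (a : Ws D t) k, e a k = (a : Frm T) (v k))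
    (Y : Module.End ℝ T.V) (hY : RatEnd T Y) (hYZ : ∀ w, Y (D.Z w) = D.Z (Y w))
    (A : Module.End ℂ (Ws D t)) (hA : ∀ a : Ws D t, ((A a : Ws D t) : Frm T) = pre Y (a : Frm T))
    (k l : Fin r) : IsAlgebraic ℚ (e.conj A (Pi.single k 1) l) := by
  classical
  obtain ⟨N, x, hN, hx⟩ := hv.mat Y hY hYZ
  set a : Ws D t := e.symm (Pi.single k 1) with ha
  have hak : ∀ j, (a : Frm T) (v j) = (Pi.single k 1 : Fin r → ℂ) j := by
    intro j
    rw [← he, ha, LinearEquiv.apply_symm_apply]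
  have h3 : e.conj A (Pi.single k 1) l = (a : Frm T) (Y (v l)) := by
    rw [LinearEquiv.conj_apply_apply, he, hA]
    rfl
  have h4 := congrArg (a : Frm T) (hx l)
  rw [map_zsmul, map_sum] at h4
  have h5 : ∑ j, (a : Frm T) ((Polynomial.aeval D.Z (x l j)) (v j)) =
      Polynomial.aeval (zet m t) (x l k) := by
    rw [Finset.sum_eq_single k]
    · rw [B_aeval a.2, hak, Pi.single_eq_same, mul_one]
    · intro j _ hj
      rw [B_aeval a.2, hak, Pi.single_eq_of_ne hj, mul_zero]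
    · intro h6
      exact absurd (Finset.mem_univ k) h6
  rw [h5, zsmul_eq_mul] at h4
  have hN' : (N : ℂ) ≠ 0 := Int.cast_ne_zero.2 hN
  have h6 : (a : Frm T) (Y (v l)) = (N : ℂ)⁻¹ * Polynomial.aeval (zet m t) (x l k) := by
    rw [← h4]
    field_simp
  rw [h3, h6]
  have h7 : IsIntegral ℚ (Polynomial.aeval (zet m t) (x l k)) := alg_aeval hm t (x l k)
  have h8 : IsAlgebraic ℚ ((N : ℂ)⁻¹) := by
    have h9 : ((N : ℂ)⁻¹) = algebraMap ℚ ℂ ((N : ℚ)⁻¹) := by
      rw [map_inv₀]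
      congr 1
    rw [h9]
    exact isAlgebraic_algebraMap _
  exact h8.mul h7.isAlgebraic

/-- The multiplication by `i` on an eigenspace, in coordinates. -/
theorem Jv {v : Fin r → T.V} (t : (ZMod m)ˣ)
    (e : Ws D t ≃ₗ[ℂ] (Fin r → ℂ)) (he : ∀ (a : Ws D t) k, e a k = (a : Frm T) (v k))
    (J : Module.End ℂ (Fin r → ℂ)) (hJ : IsJv D v t J) (a a' : Ws D t)
    (haa : (a' : Frm T) = pre (mulI T) (a : Frm T)) : J (e a) = e a' := by
  have h1 : e a = fun k => (a : Frm T) (v k) := funext fun k => he a k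
  have h2 : e a' = fun k => (a : Frm T) (Complex.I • v k) := by
    funext k
    rw [he, haa]
    rfl
  rw [h1, h2]
  exact hJ a a.2

end kA_aux

open kA_aux SEB.fA_aux SEB.At0_aux SEB.Per_aux SEB.cHit_aux in
/-- COORDINATES OF A LINK. -/
theorem tkAs : S_kAs := by
  classical
  intro T T' m m' r D D' hG hG' v v' hv hv' h hh u w θ hθ hθJ
  obtain ⟨p1, p2, p3, p4, p5⟩ := tPrj T T' m m' D D' h hh
  have hr := hG.hr
  have hm : 0 < m := by have := hG.hm; omega
  have hm' : 0 < m' := by have := hG'.hm; omega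
  have := fin_frm T
  have := fin_frm T'
  have hst := (tBas tPj T m D hG.hm).2.2.1
  have hst' := (tBas tPj T' m' D' hG'.hm).2.2.1
  obtain ⟨e, he⟩ := crd hG.hm hG.dim hv u
  obtain ⟨e', he'⟩ := crd hG'.hm hG'.dim hv' w
  have hCom : ∀ Y ∈ Com2 h, Y ∈ h := by
    rintro _ ⟨X, hX, X', hX', rfl⟩
    exact hh.br X hX X' hX'
  have hres : ∀ Y ∈ Com2 h, ∀ a ∈ Ws D u, pre Y.1 a ∈ Ws D u := fun Y hY a ha =>
    hst Y.1 (hh.u Y (hCom Y hY)).1.1 u a ha
  have hres' : ∀ Y ∈ Com2 h, ∀ a ∈ Ws D' w, pre Y.2 a ∈ Ws D' w := fun Y hY a ha =>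
    hst' Y.2 (hh.u Y (hCom Y hY)).2.1 w a ha
  -- the operators in coordinates
  let op : ∀ Y ∈ Com2 h, Module.End ℂ (Ws D u) := fun Y hY => (pre Y.1).restrict (hres Y hY)
  let op' : ∀ Y ∈ Com2 h, Module.End ℂ (Ws D' w) := fun Y hY => (pre Y.2).restrict (hres' Y hY)
  have halg : ∀ Y hY k l, IsAlgebraic ℚ (e.conj (op Y hY) (Pi.single k 1) l) := fun Y hY =>
    algX hm hv u e he Y.1 (hh.rat Y (hCom Y hY)).1 (hh.u Y (hCom Y hY)).1.1 (op Y hY) fun _ => rfl
  have halg' : ∀ Y hY k l, IsAlgebraic ℚ (e'.conj (op' Y hY) (Pi.single k 1) l) := fun Y hY =>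
    algX hm' hv' w e' he' Y.2 (hh.rat Y (hCom Y hY)).2 (hh.u Y (hCom Y hY)).2.1 (op' Y hY)
      fun _ => rfl
  -- the link in coordinates
  let θ' : (Fin r → ℂ) ≃ₗ[ℂ] (Fin r → ℂ) := e.symm.trans (θ.trans e')
  have hθ' : ∀ a : Ws D u, θ' (e a) = e' (θ a) := by
    intro a
    change e' (θ (e.symm (e a))) = _
    rw [LinearEquiv.symm_apply_apply]
  let θl : Module.End ℂ (Fin r → ℂ) := θ'
  have hgen : ∀ Y, ∀ hY : Y ∈ Com2 h, θl * e.conj (op Y hY) = e'.conj (op' Y hY) * θl := by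
    intro Y hY
    apply LinearMap.ext
    intro y
    obtain ⟨a, rfl⟩ := e.surjective y
    change θ' (e.conj (op Y hY) (e a)) = e'.conj (op' Y hY) (θ' (e a))
    rw [LinearEquiv.conj_apply_apply, LinearEquiv.symm_apply_apply, hθ', hθ',
      LinearEquiv.conj_apply_apply, LinearEquiv.symm_apply_apply]
    congr 1
    apply Subtype.ext
    exact hθ (pre2 Y) (Submodule.subset_span ⟨Y, hY, rfl⟩) a (op Y hY a) rfl
  have hΘ0 : LinearMap.toMatrix' θl ≠ 0 := by
    intro h0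
    have h1 : θl = 0 := by
      have := congrArg Matrix.toLin' h0
      rwa [Matrix.toLin'_toMatrix', map_zero] at this
    have h2 : θ' (Pi.single (⟨0, by omega⟩ : Fin r) 1) = 0 := LinearMap.congr_fun h1 _
    rw [LinearEquiv.map_eq_zero_iff] at h2
    have h3 := congrFun h2 (⟨0, by omega⟩ : Fin r)
    simp at h3
  obtain ⟨B, hB0, hBalg, hB⟩ := alg_sol (LinearMap.toMatrix' θl) hΘ0
  let Bl : Module.End ℂ (Fin r → ℂ) := Matrix.toLin' B
  have hBe : ∀ k l, Bl (Pi.single k 1) l = B l k := by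
    intro k l
    change (Matrix.toLin' B (Pi.single k 1)) l = _
    rw [Matrix.toLin'_apply, Matrix.mulVec_single_one]
    rfl
  have hBgen : ∀ Y, ∀ hY : Y ∈ Com2 h, Bl * e.conj (op Y hY) = e'.conj (op' Y hY) * Bl := by
    intro Y hY
    have h1 := hB (LinearMap.toMatrix' (e.conj (op Y hY)))
      (LinearMap.toMatrix' (e'.conj (op' Y hY)))
      (fun i j => by rw [tm_apply]; exact halg Y hY j i)
      (fun i j => by rw [tm_apply]; exact halg' Y hY j i)
      (by rw [← LinearMap.toMatrix'_mul, ← LinearMap.toMatrix'_mul, hgen Y hY])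
    have h2 := congrArg Matrix.toLin' h1
    rw [Matrix.toLin'_mul, Matrix.toLin'_mul, Matrix.toLin'_toMatrix', Matrix.toLin'_toMatrix'] at h2
    exact h2
  -- the quotient is a scalar
  let θi : Module.End ℂ (Fin r → ℂ) := θ'.symm
  have hi1 : θi * θl = 1 := by
    apply LinearMap.ext
    intro y
    exact θ'.symm_apply_apply y
  have hi2 : θl * θi = 1 := by
    apply LinearMap.ext
    intro y
    exact θ'.apply_symm_apply y
  set M : Module.End ℂ (Fin r → ℂ) := Bl * θi with hM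
  have hMgen : ∀ Y, ∀ hY : Y ∈ Com2 h, M * e'.conj (op' Y hY) = e'.conj (op' Y hY) * M := by
    intro Y hY
    have h1 : θi * e'.conj (op' Y hY) = e.conj (op Y hY) * θi := by
      calc θi * e'.conj (op' Y hY) = θi * (e'.conj (op' Y hY) * (θl * θi)) := by
            rw [hi2, mul_one]
        _ = θi * ((e'.conj (op' Y hY) * θl) * θi) := by rw [mul_assoc]
        _ = θi * ((θl * e.conj (op Y hY)) * θi) := by rw [hgen Y hY]
        _ = (θi * θl) * (e.conj (op Y hY) * θi) := by simp only [mul_assoc]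
        _ = e.conj (op Y hY) * θi := by rw [hi1, one_mul]
    rw [hM, mul_assoc, h1, ← mul_assoc, hBgen Y hY, mul_assoc]
  have hcom : ∀ C ∈ gg2 h, ∃ C' : Module.End ℂ (Ws D' w), (∀ a : Ws D' w, C.2 (a : Frm T') =
      (C' a : Frm T')) ∧ M * e'.conj C' = e'.conj C' * M := by
    intro C hC
    refine Submodule.span_induction (p := fun C _ => ∃ C' : Module.End ℂ (Ws D' w),
      (∀ a : Ws D' w, C.2 (a : Frm T') = (C' a : Frm T')) ∧ M * e'.conj C' = e'.conj C' * M)
      ?_ ?_ ?_ ?_ hC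
    · rintro _ ⟨Y, hY, rfl⟩
      exact ⟨op' Y hY, fun a => rfl, hMgen Y hY⟩
    · refine ⟨0, fun a => rfl, ?_⟩
      rw [map_zero, mul_zero, zero_mul]
    · rintro C1 C2 _ _ ⟨C1', h1, h2⟩ ⟨C2', h3, h4⟩
      refine ⟨C1' + C2', fun a => ?_, ?_⟩
      · rw [Prod.snd_add, LinearMap.add_apply, h1, h3]
        rfl
      · rw [map_add, mul_add, add_mul, h2, h4]
    · rintro c C1 _ ⟨C1', h1, h2⟩
      refine ⟨c • C1', fun a => ?_, ?_⟩
      · rw [Prod.smul_snd, LinearMap.smul_apply, h1]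
        rfl
      · rw [map_smul, mul_smul_comm, smul_mul_assoc, h2]
  obtain ⟨c, hcM⟩ := scal hr M (by
    intro A hA
    have htr : LinearMap.trace ℂ (Ws D' w) (e'.symm.conj A) = 0 := by
      rw [LinearMap.trace_conj', hA]
    obtain ⟨C, hC, h1⟩ := SEG.Jc_aux.upd (hG'.hit _ p2 w) (e'.symm.conj A) htr
    obtain ⟨C₂, hC₂, rfl⟩ := p4 C hC
    obtain ⟨C', h2, h3⟩ := hcom C₂ hC₂
    have h4 : C' = e'.symm.conj A := by
      apply LinearMap.ext
      intro a
      apply Subtype.ext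
      rw [← h2, h1]
    have h5 : e'.conj (e'.symm.conj A) = A := by
      apply LinearMap.ext
      intro y
      rw [LinearEquiv.conj_apply_apply, LinearEquiv.conj_apply_apply]
      simp
    rw [h4, h5] at h3
    exact h3)
  have hBl : Bl = c • θl := by
    have h1 : M * θl = Bl := by
      rw [hM, mul_assoc, hi1, mul_one]
    rw [← h1, hcM, smul_mul_assoc, one_mul]
  have hc0 : c ≠ 0 := by
    rintro rfl
    rw [zero_smul] at hBl
    apply hB0
    have h1 : Matrix.toLin' B = Matrix.toLin' 0 := by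
      rw [map_zero]
      exact hBl
    exact Matrix.toLin'.injective h1
  refine ⟨Bl, ⟨?_, ?_⟩, ?_⟩
  · rw [hBl]
    intro x y hxy
    have h1 : c • θ' x = c • θ' y := hxy
    exact θ'.injective (smul_right_injective _ hc0 h1)
  · intro k l
    rw [hBe]
    exact hBalg l k
  · intro J J' hJ hJ'
    have hJW : ∀ a ∈ Ws D u, pre (mulI T) a ∈ Ws D u := fun a ha =>
      hst (mulI T) (fun w => by
        change Complex.I • D.Z w = D.Z (Complex.I • w)
        rw [map_smul]) u a ha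
    have hJW' : ∀ a ∈ Ws D' w, pre (mulI T') a ∈ Ws D' w := fun a ha =>
      hst' (mulI T') (fun w => by
        change Complex.I • D'.Z w = D'.Z (Complex.I • w)
        rw [map_smul]) w a ha
    rw [hBl, smul_mul_assoc, mul_smul_comm]
    congr 1
    apply LinearMap.ext
    intro y
    obtain ⟨a, rfl⟩ := e.surjective y
    change θ' (J (e a)) = J' (θ' (e a))
    have h1 : J (e a) = e ⟨pre (mulI T) (a : Frm T), hJW _ a.2⟩ := Jv u e he J hJ a _ rfl
    rw [h1, hθ', hθ']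
    have h2 : J' (e' (θ a)) = e' ⟨pre (mulI T') ((θ a : Ws D' w) : Frm T'), hJW' _ (θ a).2⟩ :=
      Jv w e' he' J' hJ' (θ a) _ rfl
    rw [h2]
    congr 1
    apply Subtype.ext
    exact hθJ a _ rfl

end SET
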