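import Pool.Agent.Lib.SE.T.Lrg
import Pool.Agent.Lib.SE.T.Th0g
import Pool.Agent.Lib.SE.T.Gtr
import Pool.Agent.Lib.SE.Y.Spec
import Pool.Agent.Lib.SE.G.PPw

/-!
# PROJECT SE-Y, module kT: from dependence to links (helper97)
-/

set_option autoImplicit false

open Module

noncomputable section

namespace SET

open HC HC.E HC.SE SEB SEQ SEY

/-- `SEY.S_kT` for `GFs`. -/
def S_kTs : Prop :=
  ∀ (T T' : AV) (m m' r r' : ℕ) (D : Cyc T m) (D' : Cyc T' m'), GFs D r → GFs D' r' →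
    ∀ h : Set (Pr2 T T'), HLie2 D D' h → ∀ s t, ¬ Hit2 D D' h s t → r = r' ∧
    ∀ w : (ZMod m')ˣ, 0 < D'.p w → D'.p w < r' →
      ∃ (s₁ : (ZMod m)ˣ) (θ : Ws D s₁ ≃ₗ[ℂ] Ws D' w), Itw h θ ∧
        (∀ a b : Ws D s₁, (b : Frm T) = pre (mulI T) (a : Frm T) →
          (θ b : Frm T') = pre (mulI T') (θ a : Frm T')) ∧
        ∃ ρ : (ZMod (m * m'))ˣ, rho (dvd_mul_right m m') ρ s = s₁ ∧
          (rho (dvd_mul_left m' m) ρ t = w ∨ rho (dvd_mul_left m' m) ρ t = -w)

namespace kT_aux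

open SEQ.B_aux SEQ.Bg_aux SEQ.PPg_aux

section

variable {W W' : Type} [AddCommGroup W] [Module ℂ W] [FiniteDimensional ℂ W] [AddCommGroup W']
  [Module ℂ W'] [FiniteDimensional ℂ W']

omit [FiniteDimensional ℂ W] in
/-- The linear algebra: `θ` intertwines the two operators. -/
theorem alg (A : Module.End ℂ W) (A' : Module.End ℂ W') (θ : W ≃ₗ[ℂ] W') (r p' : ℂ)
    (hW' : (finrank ℂ W' : ℂ) = r) (hr' : 0 < finrank ℂ W')
    (hA : A * A = -1) (hA' : A' * A' = -1)
    (tA' : LinearMap.trace ℂ W' A' = Complex.I * (2 * p' - r)) (hp0 : p' ≠ 0) (hpr : p' ≠ r)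
    (hcomm : ∀ (N : Module.End ℂ W') , LinearMap.trace ℂ W' N = 0 →
      (θ.conj A - A') * N = N * (θ.conj A - A')) : θ.conj A = A' := by
  obtain ⟨c, hc⟩ := SEG.Jc_aux.scalar hr' _ hcomm
  have h1 : θ.conj A = A' + c • (1 : Module.End ℂ W') := by
    rw [← hc]
    abel
  have h2 : (θ.conj A) * (θ.conj A) = -1 := by
    refine LinearMap.ext fun w => ?_
    have h3 : A (A (θ.symm w)) = -θ.symm w := LinearMap.congr_fun hA (θ.symm w)
    have h4 : (θ.conj A * θ.conj A) w = θ (A (θ.symm (θ (A (θ.symm w))))) := rfl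
    rw [h4, θ.symm_apply_apply, h3, map_neg, θ.apply_symm_apply]
    rfl
  have h3 : c • ((2 : ℂ) • A' + c • (1 : Module.End ℂ W')) = 0 := by
    rw [h1, add_mul, mul_add, mul_add, hA', smul_mul_assoc, mul_smul_comm, one_mul, mul_one,
      smul_mul_assoc, one_mul] at h2
    have h4 : c • A' + (c • A' + c • c • (1 : Module.End ℂ W')) = 0 := by
      rw [add_assoc] at h2
      exact add_eq_left.1 h2
    rw [← h4, smul_add, smul_smul, smul_smul]
    module
  by_cases hc0 : c = 0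
  · rw [h1, hc0, zero_smul, add_zero]
  · exfalso
    have h4 : (2 : ℂ) • A' + c • (1 : Module.End ℂ W') = 0 := (smul_eq_zero.1 h3).resolve_left hc0
    have h5 : 2 * (Complex.I * (2 * p' - r)) + c * r = 0 := by
      have h6 := congrArg (LinearMap.trace ℂ W') h4
      rwa [map_add, map_smul, map_smul, LinearMap.trace_one, hW', tA', smul_eq_mul,
        smul_eq_mul, map_zero] at h6
    have h7 : c * c = -4 := by
      have h8 : A' = (-(c / 2)) • (1 : Module.End ℂ W') := by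
        have h9 : (2 : ℂ) • A' = -(c • (1 : Module.End ℂ W')) := eq_neg_of_add_eq_zero_left h4
        have h10 : A' = (1 / 2 : ℂ) • ((2 : ℂ) • A') := by
          rw [smul_smul]
          norm_num
        rw [h10, h9]
        module
      rw [h8, smul_mul_assoc, one_mul, smul_smul] at hA'
      have h9 := congrArg (LinearMap.trace ℂ W') hA'
      rw [map_smul, map_neg, LinearMap.trace_one, hW', smul_eq_mul] at h9
      have hr0 : r ≠ 0 := by
        rw [← hW']
        exact_mod_cast hr'.ne'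
      have h10 : (c * c + 4) * r = 0 := by linear_combination 4 * h9
      have h11 := (mul_eq_zero.1 h10).resolve_right hr0
      linear_combination h11
    have h8 : (c - 2 * Complex.I) * (c + 2 * Complex.I) = 0 := by
      have := Complex.I_mul_I
      linear_combination h7 - 4 * this
    have hI := Complex.I_ne_zero
    rcases mul_eq_zero.1 h8 with h10 | h10
    · apply hp0
      have h11 : Complex.I * (4 * p') = 0 := by linear_combination h5 - r * h10
      have h12 := (mul_eq_zero.1 h11).resolve_left hI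
      linear_combination (1 / 4 : ℂ) * h12
    · apply hpr
      have h11 : Complex.I * (4 * (p' - r)) = 0 := by linear_combination h5 - r * h10
      have h12 := (mul_eq_zero.1 h11).resolve_left hI
      linear_combination (1 / 4 : ℂ) * h12

end

/-- `θ` commutes with the multiplication by `i`. -/
theorem comm {T T' : AV} {m m' r : ℕ} {D : Cyc T m} {D' : Cyc T' m'} (hG : GFs D r)
    (hG' : GFs D' r) {h : Set (Pr2 T T')} (hh : HLie2 D D' h) {s : (ZMod m)ˣ} {t : (ZMod m')ˣ}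
    (θ : Ws D s ≃ₗ[ℂ] Ws D' t) (hθ : Itw h θ) (hp0 : 0 < D'.p t) (hpr : D'.p t < r) :
    ∀ a b : Ws D s, (b : Frm T) = pre (mulI T) (a : Frm T) →
      (θ b : Frm T') = pre (mulI T') (θ a : Frm T') := by
  obtain ⟨p1, p2, p3, p4, p5⟩ := tPrj T T' m m' D D' h hh
  obtain ⟨d1', d2'⟩ := tDim tPj tTw (tBas tPj) T' m' r D' hG'.hm hG'.dim t
  obtain ⟨A, hA⟩ := SEG.Jc_aux.exA D hG.hm s
  obtain ⟨A', hA'⟩ := SEG.Jc_aux.exA D' hG'.hm t
  obtain ⟨tA, sA⟩ := tTrJ T m D hG.hm s A hA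
  obtain ⟨tA', sA'⟩ := tTrJ T' m' D' hG'.hm t A' hA'
  have hr2 := hG.hr
  have e2 : (D'.p (-t) : ℂ) = (r : ℂ) - D'.p t := by
    rw [← d2']
    push_cast
    ring
  have key : θ.conj A = A' := by
    refine alg A A' θ (r : ℂ) (D'.p t) (by rw [d1']) (by rw [d1']; omega) sA sA' ?_ ?_ ?_ ?_
    · rw [tA', e2]
      ring
    · exact_mod_cast hp0.ne'
    · exact_mod_cast hpr.ne
    · intro N hN
      obtain ⟨C, hC, hCN⟩ := SEG.Jc_aux.upd (hG'.hit _ p2 t) N hN
      obtain ⟨C', hC', rfl⟩ := p4 C hC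
      obtain ⟨A₀, -, hA₀⟩ := (tCl (tBas tPj) T m D hG.hm _ p1).2.2 C'.1 (p5 C' hC').1 s
      have h1 : ∀ a : Ws D s, θ (A₀ a) = N (θ a) := by
        intro a
        apply Subtype.ext
        rw [hθ C' hC' a (A₀ a) (hA₀ a).symm, hCN]
      have h2 : ∀ a : Ws D s, θ (A (A₀ a) - A₀ (A a)) = A' (N (θ a)) - N (A' (θ a)) := by
        intro a
        apply Subtype.ext
        have h3 := hθ _ ((tCl2 T T' m m' D D' h hh).2 C' hC') a (A (A₀ a) - A₀ (A a)) (by
          have h4 : ((pre2 (mulI T, mulI T') * C' - C' * pre2 (mulI T, mulI T')).1 (a : Frm T)) =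
              pre (mulI T) (C'.1 (a : Frm T)) - C'.1 (pre (mulI T) (a : Frm T)) := rfl
          rw [h4, hA₀, hA, hA, hA₀]
          rfl)
        have h5 : ((pre2 (mulI T, mulI T') * C' - C' * pre2 (mulI T, mulI T')).2
            (θ a : Frm T')) = pre (mulI T') (C'.2 (θ a : Frm T')) -
              C'.2 (pre (mulI T') (θ a : Frm T')) := rfl
        rw [h3, h5, hCN, hA', hA', hCN]
        rfl
      refine LinearMap.ext fun w => ?_
      obtain ⟨a, rfl⟩ := θ.surjective w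
      have h3 := h2 a
      rw [map_sub, h1] at h3
      have h4 : θ.conj A (N (θ a)) = θ (A (A₀ a)) := by
        have h5 : θ.conj A (N (θ a)) = θ (A (θ.symm (N (θ a)))) := rfl
        rw [h5, ← h1, θ.symm_apply_apply]
      have h5 : θ.conj A (θ a) = θ (A a) := by
        have h6 : θ.conj A (θ a) = θ (A (θ.symm (θ a))) := rfl
        rw [h6, θ.symm_apply_apply]
      rw [Module.End.mul_apply, Module.End.mul_apply, LinearMap.sub_apply, LinearMap.sub_apply,
        h4, h5, map_sub]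
      have h6 : θ (A (A₀ a)) = A' (N (θ a)) - N (A' (θ a)) + N (θ (A a)) := by
        rw [← h3]
        abel
      rw [h6]
      abel
  intro a b hab
  have hb : b = A a := by
    apply Subtype.ext
    rw [hab, hA]
  have h5 : θ (A a) = A' (θ a) := by
    rw [← key]
    have h6 : θ.conj A (θ a) = θ (A (θ.symm (θ a))) := rfl
    rw [h6, θ.symm_apply_apply]
  rw [hb, h5, hA']

end kT_aux

open SEQ.B_aux SEQ.Bg_aux SEQ.PPg_aux in
theorem tkTs : S_kTs := by
  intro T T' m m' r r' D D' hG hG' h hh s t hno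
  have hm := hG.hm
  have hm' := hG'.hm
  obtain ⟨p1, p2, -, -, p5⟩ := tPrj T T' m m' D D' h hh
  have hit1 : ∀ s, Hits D (Prod.fst '' h) {s} := fun s => hG.hit _ p1 s
  have hit2 : ∀ t, Hits D' (Prod.snd '' h) {t} := fun t => hG'.hit _ p2 t
  have hL : Lnk D D' h s t :=
    (tGt2 tPrj tCl2 T T' m m' D D' hm hm' h hh s t (hit1 s) (hit2 t)).resolve_left hno
  have b1 := tLrg tPrj tCl2 (tGt2 tPrj tCl2) tLI2 T T' m m' r r' D D' hG hG' h hh
  have hrr : r = r' := (b1 s t hL).1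
  subst hrr
  refine ⟨rfl, fun w hw0 hwr => ?_⟩
  have hM0 : m * m' ≠ 0 := by positivity
  have hNZ : NeZero (m * m') := ⟨hM0⟩
  have hM : m ∣ m * m' := dvd_mul_right m m'
  have hM' : m' ∣ m * m' := dvd_mul_left m' m
  obtain ⟨ρ, hρ⟩ := ZMod.unitsMap_surjective hM' (w * t⁻¹)
  have hl := (b1 s t hL).2 (m * m') hM hM' hM0 ρ
  have e1 : rho hM' ρ t = w := by
    unfold rho
    rw [hρ, inv_mul_cancel_right]
  rw [e1] at hl
  obtain ⟨s₁, θ, hθ, hρs⟩ : ∃ (s₁ : (ZMod m)ˣ) (θ : Ws D s₁ ≃ₗ[ℂ] Ws D' w), Itw h θ ∧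
      ∃ ρ : (ZMod (m * m'))ˣ, rho hM ρ s = s₁ ∧ (rho hM' ρ t = w ∨ rho hM' ρ t = -w) := by
    rcases tTh0g tPrj tCl2 tInt tIntG tDua T T' m m' r D D' hG hG' h hh _ w hl with
      ⟨θ, hθ⟩ | ⟨θ, hθ⟩
    · exact ⟨_, θ, hθ, ρ, rfl, Or.inl e1⟩
    · obtain ⟨ρ', hρ'⟩ := ZMod.unitsMap_surjective hM' (-1)
      have hg := tGtr tPrj tRSH tGaH T T' m m' r D D' hG hG' h hh _ (-w) θ hθ (m * m') hM hM' hM0 ρ'
      have e2 : rho hM' ρ' (-w) = w := by
        unfold rho
        rw [hρ', neg_mul_neg, one_mul]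
      rw [e2] at hg
      obtain ⟨θ', hθ'⟩ := hg
      refine ⟨_, θ', hθ', ρ' * ρ, ?_, Or.inr ?_⟩
      · unfold rho
        rw [map_mul, mul_assoc]
      · rw [← e1]
        unfold rho
        rw [map_mul, hρ', mul_assoc, neg_one_mul]
  exact ⟨s₁, θ, hθ, kT_aux.comm hG hG' hh θ hθ hw0 hwr, hρs⟩

end SET
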