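import Pool.Agent.Lib.SE.T.Th1g
import Pool.Agent.Lib.SE.T.Cutg
import Pool.Agent.Lib.SE.T.Homg
import Pool.Agent.Lib.SE.T.Isog
import Pool.Agent.Lib.SE.T.R2t
import Pool.Agent.Lib.SE.T.kAs
import Pool.Agent.Lib.SE.T.kTs
import Pool.Agent.Lib.SE.Q.PPg

/-!
# PROJECT SE-T: links with equal signatures give isogenies (helper64)
-/

set_option autoImplicit false

open Module

noncomputable section

namespace SET

open HC HC.E HC.SE SEB SEQ SEQ.B_aux SEQ.Bg_aux SEQ.PPg_aux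

/-- A link with equal signatures gives an isogeny compatible with `Z`. -/
theorem same_isgs {T T' : AV} {m r : ℕ} {D : Cyc T m} {D' : Cyc T' m} (hD : GFs D r)
    (hD' : GFs D' r) (g : (ZMod m)ˣ) (hg : ∀ u, D.p u = D'.p (g * u)) {h : Set (Pr2 T T')}
    (hh : HLie2 D D' h) (s : (ZMod m)ˣ) (θ : Ws D s ≃ₗ[ℂ] Ws D' (g * s)) (hθ : Itw h θ) :
    Isg T T' ∧ ∃ Θ : T'.V →ₗ[ℂ] T.V, RatHom T' T (Θ.restrictScalars ℝ) ∧
      (∀ v, Θ (D'.Z v) = (D.Z ^ (g : ZMod m).val) (Θ v)) ∧ Function.Bijective Θ := by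
  have hc := tCutg tTrS tTrJ T T' m r D D' hD hD' g hg h hh
  have hi : Itw {X | X ∈ h ∧ TrEq D D' g X} θ := itw_mono (fun X hX => hX.1) hθ
  have hθ' := tTh1g tPrj T T' m m r r D D' hD hD' _ hc s (g * s) θ hi
    (fun X hX A B hA hB => tTrE tTrS T T' m D D' hD.hm g X (hc.u X hX).1.1 (hc.u X hX).2.1 hX.2 s
      A B hA hB)
  obtain ⟨Θ, h1, h2, h3, h4⟩ := tHomg tRSH T T' m r D D' hD hD' _ hc g s θ hθ'
  obtain ⟨h5, h6⟩ := tIsog tPrj tGaH T T' m r D D' hD hD' _ hc g s Θ h1 h2 h3 h4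
  exact ⟨h6, Θ, h1, h2, h5⟩

end SET
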